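import Pool.Agent.Lib_MP_f6e057_co.LC.Solid
import Pool.Agent.Lib_MP_f6e057_co.AC.AttachTwo

/-!
# Few critical vertices in an inseparable set inside a region
-/

set_option autoImplicit false
set_option linter.unusedSectionVars false

namespace Pool.Agent.Lib_MP_f6e057_co.AC

open Finset

section
variable {V : Type*} [Fintype V] [DecidableEq V] (G : SimpleGraph V) [DecidableRel G.Adj]

/-- **Proof** (compare `AC/AttachTwo.lean`). (DI) If `A ⊆ M`, `|N(A)| ≤ k`, then `A ∩ J = ∅` or
`J ⊆ A ∪ N(A)`. So `J ⊆ R0 ∪ N(R0)`; choose a region `R` with `J ⊆ R ∪ N(R)` and `(|N(R)|, |R|)`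
lexicographically minimal. Claim `X ⊆ N(R)`. Let `y ∈ X`, `y ∉ B`; tight `U` at `b0 ∈ B` with
`y ∈ N(U)`. Case 1: `J ⊆ U ∪ N(U)`: `J \ (R ∩ U) ⊆ N(R) ∪ N(U)` has at most `2 k - 1` elements, so
`R ∩ U` meets `J`, is in the family by (DI) and `Car.inter_le`; by minimality `R ⊆ U`; `y ∉ U`, so
`y ∉ R` and `y ∈ N(R)`. Case 2: `J ∩ U = ∅`. If `y ∈ R`: `R' = R \ (U ∪ N(U))` meets `J`
(`J \ R' ⊆ N(R) ∪ N(U)`); by `CarS.no_cut` and `cut_card` `|N(R')| ≤ |N(R)|`, so `R'` is in the
family by (DI), but `|R'| < |R|`, contradiction. So `y ∈ N(R)`. -/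
theorem inside_JS {k : ℕ} {H B M J R0 : Finset V} (h : CarS G k H B M) (hJM : J ⊆ M)
    (hJB : Disjoint J B) (hJc : 2 * k ≤ J.card)
    (hJ : ∀ U ⊆ J, U.Nonempty → (J \ (U ∪ nbL G J U)).Nonempty → k + 1 ≤ (nbL G J U).card)
    (hR0 : Reg G k H M R0) (hJR : ¬ Disjoint J R0)
    {X : Finset V} (hX : X ⊆ J) (hcrit : ∀ y ∈ X, ¬ Car G k H B (M.erase y)) :
    X.card + 1 ≤ k := by
  classical
  have hDI : ∀ A : Finset V, (nbL G M A).card ≤ k → Disjoint A J ∨ J ⊆ A ∪ nbL G M A :=
    fun A hA => inside_DI G hJM hJ hA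
  -- the family
  obtain ⟨R, ⟨hR, hRJ⟩, hmin⟩ : ∃ R, (Reg G k H M R ∧ J ⊆ R ∪ nbL G M R) ∧
      ∀ R', Reg G k H M R' → J ⊆ R' ∪ nbL G M R' → (nbL G M R').card ≤ (nbL G M R).card →
        R.card ≤ R'.card := by
    have hR0J : J ⊆ R0 ∪ nbL G M R0 := by
      rcases hDI R0 hR0.card.le with h1 | h1
      · exact absurd h1.symm hJR
      · exact h1
    obtain ⟨R, hRm, hmin⟩ := exists_min_image
      (univ.filter fun U : Finset V => Reg G k H M U ∧ J ⊆ U ∪ nbL G M U)
      (fun U => (nbL G M U).card * (Fintype.card V + 1) + U.card)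
      ⟨R0, by simpa using ⟨hR0, hR0J⟩⟩
    simp only [mem_filter, mem_univ, true_and] at hRm hmin
    refine ⟨R, hRm, ?_⟩
    intro R' h1 h2 h3
    have h4 := hmin R' ⟨h1, h2⟩
    have h5 : (nbL G M R').card * (Fintype.card V + 1) ≤
        (nbL G M R).card * (Fintype.card V + 1) := Nat.mul_le_mul_right _ h3
    omega
  have hSk : (nbL G M R).card < k := hR.card
  -- membership in the family
  have hfam : ∀ A ⊆ R, (nbL G M A).card ≤ (nbL G M R).card → (∃ j ∈ J, j ∈ A) →
      R ⊆ A := by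
    intro A hA hc hj
    obtain ⟨j, hjJ, hjA⟩ := hj
    have hreg : Reg G k H M A :=
      ⟨hA.trans hR.sub, disjoint_of_subset_left hA hR.dis, lt_of_le_of_lt hc hR.card⟩
    have hJA : J ⊆ A ∪ nbL G M A := by
      rcases hDI A (by omega) with h1 | h1
      · exact absurd hjJ (disjoint_left.1 h1 hjA)
      · exact h1
    have h1 := hmin A hreg hJA hc
    exact (eq_of_subset_of_card_le hA h1).symm.subset
  have hcover : X ⊆ nbL G M R := by
    intro y hyX
    have hyJ := hX hyX
    have hyM := hJM hyJ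
    have hyB : y ∉ B := disjoint_left.1 hJB hyJ
    obtain ⟨b0, hb0, U, hU, hyU⟩ := h.car.tight G hyM hyB (hcrit y hyX)
    by_contra hyS
    have hyR : y ∈ R := by
      rcases mem_union.1 (hRJ hyJ) with h1 | h1
      · exact h1
      · exact absurd h1 hyS
    have hyU' : y ∉ U := (mem_nbL G).1 hyU |>.2.1
    have hbig : ∀ A : Finset V, J \ A ⊆ nbL G M R ∪ nbL G M U → ∃ j ∈ J, j ∈ A := by
      intro A hA
      by_contra hcon
      push Not at hcon
      have h1 : J ⊆ nbL G M R ∪ nbL G M U := fun j hj => hA (mem_sdiff.2 ⟨hj, hcon j hj⟩)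
      have h2 := card_le_card h1
      have h3 := card_union_le (nbL G M R) (nbL G M U)
      have h4 := hU.card
      omega
    rcases hDI U hU.card.le with hUJ | hUJ
    · -- Case 2
      have hR'J : ∃ j ∈ J, j ∈ R \ (U ∪ nbL G M U) := by
        apply hbig
        intro j hj
        rw [mem_sdiff] at hj
        rcases mem_union.1 (hRJ hj.1) with h1 | h1
        · by_contra hcon
          rw [mem_union, not_or] at hcon
          exact hj.2 (mem_sdiff.2 ⟨h1, fun h2 => by
            rcases mem_union.1 h2 with h3 | h3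
            · exact disjoint_left.1 hUJ h3 hj.1
            · exact hcon.2 h3⟩)
        · exact mem_union_left _ h1
      have hle := h.no_cut G hR hb0 hU
      have hcut := cut_card G (M := M) (U := U) hR.sub
      have h1 := hfam _ sdiff_subset (by omega) hR'J hyR
      rw [mem_sdiff, mem_union, not_or] at h1
      exact h1.2.2 hyU
    · -- Case 1
      have hR'J : ∃ j ∈ J, j ∈ R ∩ U := by
        apply hbig
        intro j hj
        rw [mem_sdiff, mem_inter, not_and] at hj
        rcases mem_union.1 (hRJ hj.1) with h1 | h1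
        · rcases mem_union.1 (hUJ hj.1) with h2 | h2
          · exact absurd h2 (hj.2 h1)
          · exact mem_union_right _ h2
        · exact mem_union_left _ h1
      have h1 := hfam _ inter_subset_left (h.car.inter_le G hR hb0 hU) hR'J hyR
      exact hyU' (mem_inter.1 h1).2
  have h1 := card_le_card hcover
  omega

end

end Pool.Agent.Lib_MP_f6e057_co.AC
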