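import Pool.Agent.Lib_MP_f6e057_co.LC.FewCrit
import Pool.Agent.Lib_MP_f6e057_co.LC.FewCritJ
import Pool.Agent.Lib_MP_f6e057_co.AC.Mader

/-!
# A free vertex in a region has few neighbours in the carrier
-/

set_option autoImplicit false
set_option linter.unusedSectionVars false

namespace Pool.Agent.Lib_MP_f6e057_co.AC

open Finset

section
variable {V : Type*} [Fintype V] [DecidableEq V] (G : SimpleGraph V) [DecidableRel G.Adj]

/-- **Proof** (compare `AC/Attach.lean`). Suppose `D = dg G L u ≥ 5 k + 3`. `M = insert u L`, `R` is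
disjoint from `B` (`Car.reg_disj` with `Car.mono`). `NC = {y ∈ R | Car G k H B (M.erase y)}`
contains `u`. For `y ∈ NC`, `(g, H, B, M.erase y)` is valid with `|M.erase y| = |L|`, so `h.maxE` and
`tE_erase` give `D ≤ dg G M y`. The neighbours of `y` in `M` outside `NC` are at most `k - 1`
(`few_critical` with `R0 = R`), so `dg G NC y ≥ D - (k - 1) ≥ 4 k + 4`. `mader` with `R = NC`,
`q = k + 1`, `g = 2 k + 2` gives `J`. Pick `x ∈ J`, `M' = M.erase x`, `J' = J.erase x`,
`|J'| ≥ 2 k + 3`; the set `R.erase x` is a region of `M'` containing `J'`. `inside_JS` with `X = J'`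
shows that some `y ∈ J'` has `Car G k H B (M'.erase y)`; then `(g, H, B, M'.erase y)` is valid and
`|M'.erase y| = |L| - 1`, contradicting `h.minL`. -/
theorem attachS {W : Type*} {T : SimpleGraph W} {k : ℕ} {g : W → V}
    {H B L : Finset V} (h : OptS G T k g H B L) {u : V} (hu : u ∉ L) (hug : ∀ x, g x ≠ u)
    {R : Finset V} (hR : Reg G k H (insert u L) R) (huR : u ∈ R) :
    dg G L u ≤ 5 * k + 2 := by
  classical
  by_contra hD
  push Not at hD
  have hcar := h.val.car
  set M : Finset V := insert u L with hM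
  have huM : u ∈ M := mem_insert_self _ _
  have hMu : M.erase u = L := erase_insert hu
  have hMc : M.card = L.card + 1 := card_insert_of_notMem hu
  have hout : ∀ x, g x ∉ M := by
    intro x hx
    rcases mem_insert.1 hx with h1 | h1
    · exact hug x h1
    · exact h.val.out x h1
  have hcarM : CarS G k H B M := ⟨hcar.car.mono G (subset_insert _ _), hcar.solid⟩
  have hRB : Disjoint R B := hcarM.car.reg_disj G hR
  set NC : Finset V := R.filter fun y => Car G k H B (M.erase y) with hNC
  have hmNC : ∀ y, y ∈ NC ↔ y ∈ R ∧ Car G k H B (M.erase y) := by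
    intro y
    rw [hNC, mem_filter]
  have huNC : u ∈ NC := by
    rw [hmNC, hMu]
    exact ⟨huR, hcar.car⟩
  have hNCM : NC ⊆ M := (filter_subset _ _).trans hR.sub
  have hdu : dg G M u = dg G L u := by
    unfold dg
    congr 1
    ext w
    simp only [mem_filter, hM, mem_insert]
    constructor
    · rintro ⟨rfl | h1, h2⟩
      · exact absurd h2 (G.loopless.irrefl _)
      · exact ⟨h1, h2⟩
    · rintro ⟨h1, h2⟩
      exact ⟨Or.inr h1, h2⟩
  have hdM : ∀ y ∈ NC, dg G L u ≤ dg G M y := by
    intro y hy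
    have hyM := hNCM hy
    rw [hmNC] at hy
    have hval : ValidS G T k g H B (M.erase y) :=
      ⟨⟨hy.2, hcar.solid⟩, h.val.copy, fun x hx => hout x (mem_of_mem_erase hx)⟩
    have hc : (M.erase y).card = L.card := by
      rw [card_erase_of_mem hyM, hMc]
      rfl
    have h1 := h.maxE g H B (M.erase y) hval rfl hc
    have h2 := tE_erase G hyM
    have h3 := tE_erase G huM
    rw [hMu] at h3
    omega
  have hdNC : ∀ y ∈ NC, 2 * (2 * k + 2) ≤ dg G NC y := by
    intro y hy
    have hy' := (hmNC y).1 hy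
    have h1 := hdM y hy
    have h2 : M = NC ∪ (M \ NC) := by
      rw [union_sdiff_of_subset hNCM]
    have h3 : dg G M y ≤ dg G NC y + dg G (M \ NC) y := by
      conv_lhs => rw [h2]
      exact dg_union_le G _ _ _
    have h4 : dg G (M \ NC) y + 1 ≤ k := by
      unfold dg
      refine few_critical G hcarM hy'.2 hR hy'.1 ?_ ?_ ?_
      · intro z hz
        exact (mem_sdiff.1 (mem_filter.1 hz).1).1
      · intro z hz
        exact (mem_filter.1 hz).2
      · intro z hz
        have hz' := mem_sdiff.1 (mem_filter.1 hz).1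
        by_contra hcon
        push Not at hcon
        exact hz'.2 ((hmNC z).2 ⟨hcon.1, hcon.2⟩)
    omega
  obtain ⟨J, hJN, hJne, hJd, hJs⟩ := mader G ⟨u, huNC⟩ (q := k + 1) (g := 2 * k + 2)
    (by omega) (by omega) hdNC
  obtain ⟨x, hx⟩ := hJne
  have hxM := hNCM (hJN hx)
  have hxN := (hmNC x).1 (hJN hx)
  have hJc := dg_lt_card G hx
  have hJd' := hJd x hx
  have hJ'c : (J.erase x).card + 1 = J.card := card_erase_add_one hx
  have hM'c : (M.erase x).card = L.card := by
    rw [card_erase_of_mem hxM, hMc]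
    rfl
  have hJM : J.erase x ⊆ M.erase x := by
    intro z hz
    rw [mem_erase] at hz ⊢
    exact ⟨hz.1, hNCM (hJN hz.2)⟩
  have hJB : Disjoint (J.erase x) B := by
    rw [disjoint_left]
    intro z hz
    exact disjoint_left.1 hRB ((hmNC z).1 (hJN (mem_of_mem_erase hz))).1
  have hcarM' : CarS G k H B (M.erase x) := ⟨hxN.2, hcar.solid⟩
  have hreg : Reg G k H (M.erase x) (R.erase x) := by
    refine ⟨fun z hz => ?_, disjoint_of_subset_left (erase_subset _ _) hR.dis, ?_⟩
    · rw [mem_erase] at hz ⊢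
      exact ⟨hz.1, hR.sub hz.2⟩
    · refine lt_of_le_of_lt (card_le_card ?_) hR.card
      intro v hv
      rw [mem_nbL] at hv ⊢
      obtain ⟨hvM, hvR, w, hw, ha⟩ := hv
      rw [mem_erase] at hvM hw
      refine ⟨hvM.2, fun hh => hvR (mem_erase.2 ⟨hvM.1, hh⟩), w, hw.2, ha⟩
  have hall : ¬ ∀ y ∈ J.erase x, ¬ Car G k H B ((M.erase x).erase y) := by
    intro hcon
    have h1 := inside_JS G hcarM' hJM hJB (by omega) ?_ hreg ?_ (Subset.refl _) hcon
    · omega
    · intro U hU hUne hX
      have hsub : nbL G J U ⊆ insert x (nbL G (J.erase x) U) := by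
        intro v hv
        rw [mem_nbL] at hv
        by_cases hvx : v = x
        · exact mem_insert.2 (Or.inl hvx)
        · exact mem_insert_of_mem ((mem_nbL G).2 ⟨mem_erase.2 ⟨hvx, hv.1⟩, hv.2⟩)
      have h2 : (J \ (U ∪ nbL G J U)).Nonempty := by
        obtain ⟨z, hz⟩ := hX
        rw [mem_sdiff, mem_union, not_or, mem_erase] at hz
        refine ⟨z, ?_⟩
        rw [mem_sdiff, mem_union, not_or]
        refine ⟨hz.1.2, hz.2.1, fun h3 => ?_⟩
        rcases mem_insert.1 (hsub h3) with h4 | h4
        · exact hz.1.1 h4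
        · exact hz.2.2 h4
      have h3 := hJs U (hU.trans (erase_subset _ _)) hUne h2
      have h4 := (card_le_card hsub).trans (card_insert_le _ _)
      omega
    · have h2 : (J.erase x).Nonempty := by
        rw [← card_pos]
        omega
      obtain ⟨y, hy⟩ := h2
      rw [not_disjoint_iff]
      refine ⟨y, hy, ?_⟩
      rw [mem_erase] at hy ⊢
      exact ⟨hy.1, ((hmNC y).1 (hJN hy.2)).1⟩
  push Not at hall
  obtain ⟨y, hy, hyc⟩ := hall
  have h1 := h.minL g H B _ ⟨⟨hyc, hcar.solid⟩, h.val.copy, fun z hz =>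
    hout z (mem_of_mem_erase (mem_of_mem_erase hz))⟩ rfl
  have h2 : ((M.erase x).erase y).card + 1 = (M.erase x).card := card_erase_add_one (hJM hy)
  omega

end

end Pool.Agent.Lib_MP_f6e057_co.AC
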