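import Pool.Agent.Lib_MP_f6e057_co.LC.Attach

/-!
# Adding a free vertex with many neighbours to the closure
-/

set_option autoImplicit false
set_option linter.unusedSectionVars false

namespace Pool.Agent.Lib_MP_f6e057_co.AC

open Finset

section
variable {V : Type*} [Fintype V] [DecidableEq V] (G : SimpleGraph V) [DecidableRel G.Adj]

/-- **Proof.** `(H, B1, insert z L1)` is a carrier (`Car.mono`). If `(H, insert z B1, insert z L1)` is
a carrier we are done. Otherwise `Car.region` gives a region `R ∋ z` of `insert z L1`, disjoint from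
`B1`; all its vertices except `z` are in `L` (`hc.new`), so `R ⊆ insert z L`, and `R` is a region of
`insert z L` (`nbL` is monotone in the first argument). All neighbours of `z` in `L1` are in `R` (then in
`L`) or in `nbL G (insert z L1) R` (at most `k - 1`), so `dg G L1 z ≤ dg G L z + (k - 1)`.
`(g', H, B, L)` is again `OptS`, so `attachS` gives `dg G L z ≤ 5 k + 2`, contradiction. -/
theorem clo_insert {W : Type*} {T : SimpleGraph W} {k : ℕ} {g : W → V}
    {H B L B1 L1 : Finset V} (h : OptS G T k g H B L) (hc : Clo G k H B L B1 L1)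
    {g' : W → V} (hg' : Exch.IsCopy T G g') (hout : ∀ x, g' x ∉ L1) {z : V} (hz : z ∉ L1)
    (hgz : ∀ x, g' x ≠ z) (hdeg : 6 * k + 2 ≤ dg G L1 z) :
    Clo G k H B L (insert z B1) (insert z L1) := by
  have hm : Car G k H B1 (insert z L1) := hc.car.mono G (subset_insert _ _)
  by_cases hcar : Car G k H (insert z B1) (insert z L1)
  · refine ⟨hcar, hc.sB.trans (subset_insert _ _), hc.sL.trans (subset_insert _ _), ?_⟩
    intro v hv hvL
    rcases mem_insert.1 hv with rfl | hv
    · exact mem_insert_self _ _
    · exact mem_insert_of_mem (hc.new v hv hvL)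
  · exfalso
    obtain ⟨R, hR, hzR⟩ := hm.region G (mem_insert_self z L1) hcar
    have hRB := hm.reg_disj G hR
    have hRL : R ⊆ insert z L := by
      intro v hv
      rcases mem_insert.1 (hR.sub hv) with h1 | h1
      · rw [h1]; exact mem_insert_self _ _
      · apply mem_insert_of_mem
        by_contra hvL
        exact disjoint_left.1 hRB hv (hc.new v h1 hvL)
    have hsub : nbL G (insert z L) R ⊆ nbL G (insert z L1) R := by
      intro v hv
      rw [mem_nbL] at hv ⊢
      exact ⟨insert_subset_insert z hc.sL hv.1, hv.2⟩
    have hR' : Reg G k H (insert z L) R :=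
      ⟨hRL, hR.dis, lt_of_le_of_lt (card_le_card hsub) hR.card⟩
    have hzL : z ∉ L := fun h' => hz (hc.sL h')
    have hval : ValidS G T k g' H B L := ⟨h.val.car, hg', fun x h' => hout x (hc.sL h')⟩
    have hopt : OptS G T k g' H B L := ⟨hval, h.maxB, h.minL, h.maxE⟩
    have h1 := attachS G hopt hzL hgz hR' hzR
    have h2 : (L1.filter fun w => G.Adj z w) ⊆
        (L.filter fun w => G.Adj z w) ∪ nbL G (insert z L1) R := by
      intro w hw
      rw [mem_filter] at hw
      rw [mem_union, mem_filter]
      by_cases hwR : w ∈ R
      · left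
        refine ⟨?_, hw.2⟩
        rcases mem_insert.1 (hRL hwR) with h' | h'
        · exact absurd h' hw.2.ne'
        · exact h'
      · right
        exact (mem_nbL G).2 ⟨mem_insert_of_mem hw.1, hwR, z, hzR, hw.2⟩
    have h3 := card_le_card h2
    have h4 := card_union_le (L.filter fun w => G.Adj z w) (nbL G (insert z L1) R)
    have h5 := hR.card
    unfold dg at hdeg h1
    omega

end

end Pool.Agent.Lib_MP_f6e057_co.AC
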