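import Pool.Agent.Lib_MP_f6e057_co.AC.Car

/-!
# Linear constant: solid carriers, closures, generic minimal path systems
-/

set_option autoImplicit false
set_option linter.unusedSectionVars false

namespace Pool.Agent.Lib_MP_f6e057_co.AC

open Finset

section
variable {V : Type*} [Fintype V] [DecidableEq V] (G : SimpleGraph V) [DecidableRel G.Adj]

/-- a carrier whose linked set `B` is solid: every vertex of `B` has at least `2 k` neighbours in
`B` -/
structure CarS (k : ℕ) (H B L : Finset V) : Prop where
  car : Car G k H B L
  solid : ∀ v ∈ B, 2 * k ≤ dg G B v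

/-- a copy of `T` outside a solid carrier -/
structure ValidS {W : Type*} (T : SimpleGraph W) (k : ℕ) (g : W → V) (H B L : Finset V) :
    Prop where
  car : CarS G k H B L
  copy : Exch.IsCopy T G g
  out : ∀ x, g x ∉ L

/-- the extremal choice: `|B|` maximal, then `|L|` minimal, then as many edges in `L` as
possible -/
structure OptS {W : Type*} (T : SimpleGraph W) (k : ℕ) (g : W → V) (H B L : Finset V) :
    Prop where
  val : ValidS G T k g H B L
  maxB : ∀ (g' : W → V) (H' B' L' : Finset V), ValidS G T k g' H' B' L' → B'.card ≤ B.card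
  minL : ∀ (g' : W → V) (H' B' L' : Finset V), ValidS G T k g' H' B' L' → B'.card = B.card →
    L.card ≤ L'.card
  maxE : ∀ (g' : W → V) (H' B' L' : Finset V), ValidS G T k g' H' B' L' → B'.card = B.card →
    L'.card = L.card → tE G L' ≤ tE G L

/-- a closure `(B1, L1)` of the carrier `(H, B, L)`: all vertices added to `L` are linked -/
structure Clo (k : ℕ) (H B L B1 L1 : Finset V) : Prop where
  car : Car G k H B1 L1
  sB : B ⊆ B1
  sL : L ⊆ L1
  new : ∀ v ∈ L1, v ∉ L → v ∈ B1

/-- a system of disjoint paths with as few vertices outside `L` as possible -/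
structure MinSys {n : ℕ} (R A C L : Finset V) (P : Fin n → List V) : Prop where
  sys : Sys G R A C P
  min : ∀ P' : Fin n → List V, Sys G R A C P' → (VP P \ L).card ≤ (VP P' \ L).card

end

end Pool.Agent.Lib_MP_f6e057_co.AC
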