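import Pool.Agent.Lib_MP_f6e057_co.LC.Solid

/-!
# A noncritical vertex of a region has few critical neighbours
-/

set_option autoImplicit false
set_option linter.unusedSectionVars false

namespace Pool.Agent.Lib_MP_f6e057_co.AC

open Finset

section
variable {V : Type*} [Fintype V] [DecidableEq V] (G : SimpleGraph V) [DecidableRel G.Adj]

/-- **Proof** (compare `AC/AttachOne.lean`). Choose `R` with `Reg G k H M R`, `y ∈ R ⊆ R0` and
`(|N(R)|, |R|)` lexicographically minimal. Claim `X ⊆ N(R)`. Let `z ∈ X`; `z ∈ R` or `z ∈ N(R)`.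
Suppose `z ∈ R ⊆ R0`; then `z ∉ B` (`Car.reg_disj`), `M.erase z` is no carrier, so there is a
tight `U` at `b0 ∈ B` with `z ∈ N(U)`. `y ∉ U`: otherwise `R ∩ U` is better (`Car.inter_le`,
`z ∈ R \ U`). `y ∉ N(U)` (`Car.tight_not_nb`). `R' = R \ (U ∪ N(U))` contains `y`, not `z`, so by
minimality `|N(R')| > |N(R)|`, and `cut_card` gives `|N(R) ∩ U| + 1 ≤ |N(U) ∩ R|`, contradicting
`CarS.no_cut`. -/
theorem few_critical {k : ℕ} {H B M R0 : Finset V} {y : V} (h : CarS G k H B M)
    (hyc : Car G k H B (M.erase y)) (hR0 : Reg G k H M R0) (hy : y ∈ R0)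
    {X : Finset V} (hX : X ⊆ M) (hadj : ∀ z ∈ X, G.Adj y z)
    (hcrit : ∀ z ∈ X, z ∉ R0 ∨ ¬ Car G k H B (M.erase z)) : X.card + 1 ≤ k := by
  classical
  -- a lexicographically minimal region inside `R0`
  obtain ⟨R, hR, hRR0, hyR, hmin⟩ : ∃ R, Reg G k H M R ∧ R ⊆ R0 ∧ y ∈ R ∧
      ∀ R', Reg G k H M R' → R' ⊆ R0 → y ∈ R' →
      (nbL G M R).card * (Fintype.card V + 1) + R.card
        ≤ (nbL G M R').card * (Fintype.card V + 1) + R'.card := by
    obtain ⟨R, hRm, hRmin⟩ := Finset.exists_min_image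
      (Finset.univ.filter fun R => Reg G k H M R ∧ R ⊆ R0 ∧ y ∈ R)
      (fun R => (nbL G M R).card * (Fintype.card V + 1) + R.card)
      ⟨R0, by simp [hR0, hy]⟩
    simp only [Finset.mem_filter, Finset.mem_univ, true_and] at hRm hRmin
    exact ⟨R, hRm.1, hRm.2.1, hRm.2.2, fun R' h1 h2 h3 => hRmin R' ⟨h1, h2, h3⟩⟩
  -- strictly smaller sets are not better
  have hmin' : ∀ R', R' ⊆ R → y ∈ R' → R'.card < R.card →
      (nbL G M R).card < (nbL G M R').card := by
    intro R' hsub hy' hlt
    by_contra hcon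
    push Not at hcon
    have hreg : Reg G k H M R' :=
      ⟨hsub.trans hR.sub, Finset.disjoint_of_subset_left hsub hR.dis, lt_of_le_of_lt hcon hR.card⟩
    have h1 := hmin R' hreg (hsub.trans hRR0) hy'
    have h2 : (nbL G M R').card * (Fintype.card V + 1)
        ≤ (nbL G M R).card * (Fintype.card V + 1) := Nat.mul_le_mul_right _ hcon
    omega
  have hcover : X ⊆ nbL G M R := by
    intro z hz
    have hyz := hadj z hz
    have hzM := hX hz
    by_cases hzR : z ∈ R
    · exfalso
      have hzB : z ∉ B := Finset.disjoint_left.mp (h.car.reg_disj G hR) hzR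
      have hzc : ¬ Car G k H B (M.erase z) := by
        rcases hcrit z hz with hh | hh
        · exact absurd (hRR0 hzR) hh
        · exact hh
      obtain ⟨b0, hb0, U, hU, hzU⟩ := h.car.tight G hzM hzB hzc
      have hzU' := (mem_nbL G).mp hzU
      have hyU : y ∉ U := by
        intro hyU
        have h1 := h.car.inter_le G hR hb0 hU
        have h2 := hmin' (R ∩ U) Finset.inter_subset_left (Finset.mem_inter.mpr ⟨hyR, hyU⟩)
          (Finset.card_lt_card (by
            refine ⟨Finset.inter_subset_left, fun hh => ?_⟩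
            exact hzU'.2.1 (Finset.mem_inter.mp (hh hzR)).2))
        omega
      have hyN : y ∉ nbL G M U := hyc.tight_not_nb G hb0 hU hyU
      have hR' := hmin' (R \ (U ∪ nbL G M U)) Finset.sdiff_subset
        (by
          rw [Finset.mem_sdiff, Finset.mem_union]
          exact ⟨hyR, fun hh => hh.elim hyU hyN⟩)
        (Finset.card_lt_card (by
          refine ⟨Finset.sdiff_subset, fun hh => ?_⟩
          exact (Finset.mem_sdiff.mp (hh hzR)).2 (Finset.mem_union_right _ hzU)))
      have hcc := cut_card G (M := M) (U := U) hR.sub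
      have hnc := h.no_cut G hR hb0 hU
      omega
    · rw [mem_nbL]
      exact ⟨hzM, hzR, y, hyR, hyz⟩
  have hS := hR.card
  have hc := Finset.card_le_card hcover
  omega

end

end Pool.Agent.Lib_MP_f6e057_co.AC
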