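import Pool.Agent.Lib_MP_f6e057_co.LC.Solid

/-!
# If the copy is the whole complement of the closure, there is no region
-/

set_option autoImplicit false
set_option linter.unusedSectionVars false

namespace Pool.Agent.Lib_MP_f6e057_co.AC

open Finset

section
variable {V : Type*} [Fintype V] [DecidableEq V] (G : SimpleGraph V) [DecidableRel G.Adj]

/-- **Proof** (compare `AC/StepC.lean`). Only the link property for `B := L1` is to be shown. Suppose
`U0 ⊆ L1` is nonempty, disjoint from `H`, `|N_{L1}(U0)| < k`. It is disjoint from `B1`, so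
`U0 ⊆ L` (`hc.new`) and `|N_L(U0)| < k`. Choose a nonempty `R ⊆ U0` with `|N_L(R)| < k` and `|R|`
minimal. Let `z ∈ R`; `z ∉ B`; `(g', H, B, L.erase z)` is not valid (`h.minL`), so there is a tight `U` of
`L` at `b0 ∈ B` with `z ∈ N_L(U)`. `R ∩ U = ∅` (`Car.inter_le`, minimality, `z ∉ U`).
`R' = R \ (U ∪ N(U))` is empty: otherwise `|N(R')| ≥ k` and `cut_card` contradicts
`CarS.no_cut`. So `R ⊆ N_L(U)`, `|R| ≤ k`. All neighbours of `z` in `L1` are in `L` or in
`N_{L1}(U0)`, so `degree z ≤ dg G L z + (k - 1) + |W| ≤ (|R| + |N_L(R)| - 1) + (k - 1) + |W|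
≤ 3 k - 3 + |W|` (`dg_le_of_mem`, `hcov`), contradiction. -/
theorem stepCS {W : Type*} [Fintype W] {T : SimpleGraph W} {k : ℕ} {g : W → V}
    {H B L B1 L1 : Finset V} (h : OptS G T k g H B L) (hc : Clo G k H B L B1 L1)
    {g' : W → V} (hg' : Exch.IsCopy T G g') (hout : ∀ x, g' x ∉ L1)
    (hcov : ∀ v, v ∉ L1 → ∃ x, g' x = v)
    (hd : Fintype.card W + 3 * k ≤ G.minDegree) : Car G k H L1 L1 := by
  classical
  have hcar := h.val.car.car
  refine ⟨hcar.HB.trans (hcar.BL.trans hc.sL), Subset.refl _, hc.car.big, hc.car.core, ?_⟩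
  intro U0 hU0 hU0H hU0L
  by_contra hlt0
  push Not at hlt0
  have hreg1 : Reg G k H L1 U0 := ⟨hU0, hU0H, hlt0⟩
  have hdB1 := hc.car.reg_disj G hreg1
  have hU0sub : U0 ⊆ L := by
    intro v hv
    by_contra hvL
    exact disjoint_left.mp hdB1 hv (hc.new v (hU0 hv) hvL)
  have hregL : Reg G k H L U0 := by
    refine ⟨hU0sub, hU0H, lt_of_le_of_lt (card_le_card ?_) hlt0⟩
    intro v hv
    rw [mem_nbL] at hv ⊢
    exact ⟨hc.sL hv.1, hv.2⟩
  obtain ⟨u0, hu0, -⟩ := not_disjoint_iff.mp hU0L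
  have hne : (U0.powerset.filter fun R => R.Nonempty ∧ Reg G k H L R).Nonempty :=
    ⟨U0, mem_filter.mpr ⟨mem_powerset.mpr (Subset.refl _), ⟨u0, hu0⟩, hregL⟩⟩
  obtain ⟨R, hRm, hRmin⟩ := exists_min_image _ (fun R : Finset V => R.card) hne
  obtain ⟨hRU0, hRne, hR⟩ := mem_filter.mp hRm
  rw [mem_powerset] at hRU0
  have hRB := hcar.reg_disj G hR
  obtain ⟨z, hz⟩ := hRne
  have hzB : z ∉ B := fun hh => disjoint_left.mp hRB hz hh
  have hzL : z ∈ L := hR.sub hz
  have hn2 : ¬ Car G k H B (L.erase z) := by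
    intro hc'
    have h1 := h.minL g H B (L.erase z)
      ⟨⟨hc', h.val.car.solid⟩, h.val.copy, fun x hx => h.val.out x (mem_erase.mp hx).2⟩ rfl
    rw [card_erase_of_mem hzL] at h1
    have h2 : 0 < L.card := card_pos.mpr ⟨z, hzL⟩
    omega
  obtain ⟨b, hb, U, hU, hzU⟩ := hcar.tight G hzL hzB hn2
  have hznU : z ∉ U := ((mem_nbL G).1 hzU).2.1
  have hRU : ∀ v ∈ R, v ∉ U := by
    intro v hvR hvU
    have hreg : Reg G k H L (R ∩ U) :=
      ⟨inter_subset_left.trans hR.sub, disjoint_of_subset_left inter_subset_left hR.dis,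
        lt_of_le_of_lt (hcar.inter_le G hR hb hU) hR.card⟩
    have h1 := hRmin (R ∩ U) (mem_filter.mpr
      ⟨mem_powerset.mpr (inter_subset_left.trans hRU0), ⟨v, mem_inter.mpr ⟨hvR, hvU⟩⟩, hreg⟩)
    have h2 : (R ∩ U).card < R.card := by
      apply card_lt_card
      refine ⟨inter_subset_left, fun hh => hznU (mem_inter.mp (hh hz)).2⟩
    omega
  have hempty : ∀ v ∈ R, v ∈ nbL G L U := by
    intro v hv
    by_contra hvN
    have hR's : R \ (U ∪ nbL G L U) ⊆ R := sdiff_subset
    have hvR' : v ∈ R \ (U ∪ nbL G L U) := by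
      rw [mem_sdiff, mem_union]
      exact ⟨hv, by rintro (hh | hh); exacts [hRU v hv hh, hvN hh]⟩
    have h1 := cut_card G (U := U) hR.sub
    have h2 := h.val.car.no_cut G hR hb hU
    have h3 := hR.card
    have hreg : Reg G k H L (R \ (U ∪ nbL G L U)) :=
      ⟨hR's.trans hR.sub, disjoint_of_subset_left hR's hR.dis, by omega⟩
    have h4 := hRmin _ (mem_filter.mpr
      ⟨mem_powerset.mpr (hR's.trans hRU0), ⟨v, hvR'⟩, hreg⟩)
    have h5 : (R \ (U ∪ nbL G L U)).card < R.card := by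
      apply card_lt_card
      refine ⟨hR's, fun hh => ?_⟩
      have := (mem_sdiff.mp (hh hz)).2
      exact this (mem_union_right _ hzU)
    omega
  have hRk : R.card ≤ k := by
    rw [← hU.card]
    exact card_le_card hempty
  have h1 := degree_eq G L1 z
  have h2 := dg_le_of_mem G (L := L) hz
  have h3 := dg_le_card G L1ᶜ z
  have h4 : L1ᶜ.card ≤ Fintype.card W := by
    have h5 : L1ᶜ ⊆ (univ : Finset W).image g' := by
      intro v hv
      obtain ⟨x, hx⟩ := hcov v (mem_compl.mp hv)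
      exact mem_image.mpr ⟨x, mem_univ _, hx⟩
    exact (card_le_card h5).trans card_image_le
  have h5 : dg G L1 z ≤ dg G L z + (nbL G L1 U0).card := by
    unfold dg
    have h6 : (L1.filter fun w => G.Adj z w) ⊆ (L.filter fun w => G.Adj z w) ∪ nbL G L1 U0 := by
      intro w hw
      rw [mem_filter] at hw
      rw [mem_union, mem_filter, mem_nbL]
      by_cases hwL : w ∈ L
      · exact Or.inl ⟨hwL, hw.2⟩
      · exact Or.inr ⟨hw.1, fun hh => hwL (hU0sub hh), z, hRU0 hz, hw.2⟩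
    exact (card_le_card h6).trans (card_union_le _ _)
  have h6 := G.minDegree_le_degree z
  have h7 := hR.card
  omega

end

end Pool.Agent.Lib_MP_f6e057_co.AC
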