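import Pool.Agent.Lib_MP_f6e057_co.LC.Defs
import Pool.Agent.Lib_MP_f6e057_co.AC.FanCar

/-!
# Adding a piece and a path system to a carrier
-/

set_option autoImplicit false
set_option linter.unusedSectionVars false

namespace Pool.Agent.Lib_MP_f6e057_co.AC

open Finset

section
variable {V : Type*} [Fintype V] [DecidableEq V] (G : SimpleGraph V) [DecidableRel G.Adj]

/-- **Proof** (compare `AC/FanCar.lean`). Let `L' = L ∪ J ∪ VP P`, `U ⊆ L'` disjoint from `H` and
meeting `B ∪ J`. If `U` meets `B`: `Car.mono`. Otherwise `U ∩ J ≠ ∅`. If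
`J ⊄ U ∪ nbL G L' U`: `hJ` for `U ∩ J`, since `nbL G J (U ∩ J) ⊆ nbL G L' U`. Otherwise every path
`P i` contains a vertex of `nbL G L' U`: its first vertex is in `J`, so in `U` or in `nbL G L' U`;
its last vertex is in `H`, not in `U`. -/
theorem join_car {k : ℕ} {H B L J : Finset V} {P : Fin k → List V} (h : Car G k H B L)
    (hJ : ∀ U ⊆ J, U.Nonempty → (J \ (U ∪ nbL G J U)).Nonempty → k ≤ (nbL G J U).card)
    (hP : Sys G univ J H P) : Car G k H (B ∪ J) (L ∪ J ∪ VP P) := by
  set L' := L ∪ J ∪ VP P with hL'
  have hLL : L ⊆ L' := by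
    rw [hL', union_assoc]
    exact subset_union_left
  have hJL : J ⊆ L' := by
    rw [hL']
    exact subset_union_right.trans subset_union_left
  have hPL : ∀ i, ∀ v ∈ P i, v ∈ L' := by
    intro i v hv
    rw [hL']
    exact mem_union_right _ (mem_biUnion.mpr ⟨i, mem_univ _, List.mem_toFinset.mpr hv⟩)
  have hm : Car G k H B L' := h.mono G hLL
  refine ⟨hm.HB.trans subset_union_left, union_subset hm.BL hJL, h.big, h.core, ?_⟩
  intro U hU hUH hUB
  by_cases hB : Disjoint U B
  · have hUJ : ¬ Disjoint U J := by
      intro hd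
      exact hUB (disjoint_union_right.2 ⟨hB, hd⟩)
    obtain ⟨u, huU, huJ⟩ := not_disjoint_iff.1 hUJ
    by_cases hcov : J ⊆ U ∪ nbL G L' U
    · have key : ∀ i : Fin k, ∃ v ∈ P i, v ∈ nbL G L' U := by
        intro i
        have hp := hP.path i
        obtain ⟨c, hc, hlast⟩ := hp.last
        obtain ⟨a, ha, hhead⟩ := hp.head
        have haP : a ∈ P i := List.mem_of_head? hhead
        have hcP : c ∈ P i := List.mem_of_getLast? hlast
        have hcU : c ∉ U := fun hh => disjoint_left.mp hUH hh hc
        rcases mem_union.1 (hcov ha) with haU | haN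
        · obtain ⟨q, hq⟩ : ∃ q, P i = a :: q := by
            cases hpi : P i with
            | nil => rw [hpi] at hhead; simp at hhead
            | cons b q =>
              rw [hpi] at hhead
              have : b = a := Option.some.inj hhead
              exact ⟨q, by rw [this]⟩
          have hchain := hp.chain
          rw [hq, List.isChain_cons] at hchain
          obtain ⟨v, hv, hvU, hadj⟩ := first_out G (U := U) (p := q) hchain.2
            (fun b hb => ⟨a, haU, hchain.1 b hb⟩)
            ⟨c, by
              rw [hq, List.mem_cons] at hcP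
              rcases hcP with h' | h'
              · exact absurd (h' ▸ haU) hcU
              · exact h', hcU⟩
          have hvP : v ∈ P i := by rw [hq]; exact List.mem_cons_of_mem _ hv
          exact ⟨v, hvP, (mem_nbL G).2 ⟨hPL i v hvP, hvU, hadj⟩⟩
        · exact ⟨a, haP, haN⟩
      choose f hf1 hf2 using key
      have hinj : Function.Injective f := by
        intro i j hij
        by_contra hne
        exact hP.disj i j hne (f i) (hf1 i) (hij ▸ hf1 j)
      calc k = (univ.image f).card := by rw [card_image_of_injective _ hinj]; simp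
        _ ≤ (nbL G L' U).card := by
            apply card_le_card
            intro v hv
            obtain ⟨i, -, rfl⟩ := mem_image.mp hv
            exact hf2 i
    · obtain ⟨w, hwJ, hwn⟩ := not_subset.1 hcov
      rw [mem_union, not_or] at hwn
      have hsub : nbL G J (U ∩ J) ⊆ nbL G L' U := by
        intro v hv
        rw [mem_nbL] at hv
        obtain ⟨hvJ, hvU, x, hx, hadj⟩ := hv
        exact (mem_nbL G).2 ⟨hJL hvJ, fun h' => hvU (mem_inter.2 ⟨h', hvJ⟩), x,
          (mem_inter.1 hx).1, hadj⟩
      refine (hJ (U ∩ J) inter_subset_right ⟨u, mem_inter.2 ⟨huU, huJ⟩⟩ ⟨w, ?_⟩).trans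
        (card_le_card hsub)
      rw [mem_sdiff, mem_union, not_or]
      exact ⟨hwJ, fun h' => hwn.1 (mem_inter.1 h').1, fun h' => hwn.2 (hsub h')⟩
  · exact hm.link U hU hUH hB

end

end Pool.Agent.Lib_MP_f6e057_co.AC
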