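import Pool.Agent.Lib_MP_f6e057_co.LC.Defs
import Pool.Agent.Lib_MP_f6e057_co.AC.CountSame
import Pool.Agent.Lib_MP_f6e057_co.AC.CountCross
import Pool.Agent.Lib_MP_f6e057_co.AC.FanChord

/-!
# A minimal path system spans few edges
-/

set_option autoImplicit false
set_option linter.unusedSectionVars false

namespace Pool.Agent.Lib_MP_f6e057_co.AC

open Finset

section
variable {V : Type*} [Fintype V] [DecidableEq V] (G : SimpleGraph V) [DecidableRel G.Adj]

/-- a system using only vertices of a minimal system may only drop vertices of `L` -/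
theorem MinSys.no_drop {k : ℕ} {R A C L : Finset V} {P P' : Fin k → List V}
    (hP : MinSys G R A C L P) (hF : Sys G R A C P') (hsub : ∀ j, ∀ u ∈ P' j, ∃ i, u ∈ P i)
    {z : V} {i : Fin k} (hz : z ∈ P i) (hz' : ∀ j, z ∉ P' j) : z ∈ L := by
  by_contra hzL
  have h1 := hP.min P' hF
  have h2 : VP P' \ L ⊂ VP P \ L := by
    rw [ssubset_iff_of_subset]
    · refine ⟨z, ?_, ?_⟩
      · rw [mem_sdiff]
        exact ⟨mem_biUnion.2 ⟨i, mem_univ _, List.mem_toFinset.2 hz⟩, hzL⟩
      · intro h
        obtain ⟨j, -, hj⟩ := mem_biUnion.1 (mem_sdiff.1 h).1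
        exact hz' j (List.mem_toFinset.1 hj)
    · apply sdiff_subset_sdiff _ subset_rfl
      intro u hu
      obtain ⟨j, -, hj⟩ := mem_biUnion.1 hu
      obtain ⟨i', hi'⟩ := hsub j u (List.mem_toFinset.1 hj)
      exact mem_biUnion.2 ⟨i', mem_univ _, List.mem_toFinset.2 hi'⟩
  have h3 := card_lt_card h2
  omega

/-- **Proof.** As `fan_chord` (AC/FanChord.lean). -/
theorem path_chord {k : ℕ} {R A C L : Finset V} {P : Fin k → List V}
    (hP : MinSys G R A C L P) {i : Fin k} {l1 l2 l3 : List V} {v w : V}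
    (hi : P i = l1 ++ v :: (l2 ++ w :: l3)) (hvw : G.Adj v w) : ∀ z ∈ l2, z ∈ L := by
  intro z hz
  have hpi := hP.sys.path i
  rw [hi] at hpi
  have e : l1 ++ v :: (l2 ++ w :: l3) = (l1 ++ v :: l2) ++ w :: l3 := by simp
  have hnd := hpi.nodup
  rw [e, List.nodup_append] at hnd
  have hpi2 := hpi
  rw [e] at hpi2
  have hnew : PathL G R A C (l1 ++ v :: w :: l3) := by
    refine PathL.splice G hpi hpi2 hvw ?_
    intro a ha hb
    refine hnd.2.2 a ?_ a hb rfl
    rw [List.mem_append, List.mem_singleton] at ha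
    rw [List.mem_append, List.mem_cons]
    tauto
  have hsub' : ∀ u ∈ l1 ++ v :: w :: l3, u ∈ P i := by
    intro u hu
    rw [hi]
    simp only [List.mem_append, List.mem_cons] at hu ⊢
    tauto
  have hsub : ∀ j, ∀ u ∈ Function.update P i (l1 ++ v :: w :: l3) j, u ∈ P j := by
    intro j u hu
    by_cases hj : j = i
    · subst hj
      rw [Function.update_self] at hu
      exact hsub' u hu
    · rwa [Function.update_of_ne hj] at hu
  refine hP.no_drop G (P' := Function.update P i (l1 ++ v :: w :: l3)) (i := i) ⟨?_, ?_⟩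
    (fun j u hu => ⟨j, hsub j u hu⟩) (by rw [hi]; simp [hz]) ?_
  · intro j
    by_cases hj : j = i
    · subst hj
      rw [Function.update_self]
      exact hnew
    · rw [Function.update_of_ne hj]
      exact hP.sys.path j
  · intro a b hab u hu hu'
    exact hP.sys.disj a b hab u (hsub a u hu) (hsub b u hu')
  · intro j hj
    by_cases hji : j = i
    · subst hji
      rw [Function.update_self] at hj
      have hnd2 := hpi.nodup
      simp only [List.nodup_append, List.nodup_cons, List.mem_append, List.mem_cons,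
        not_or] at hnd2
      simp only [List.mem_append, List.mem_cons] at hj
      obtain ⟨n1, ⟨n2, n3, n4, n5⟩, n6⟩ := hnd2
      rcases hj with hj | hj | hj | hj
      · exact n6 z hj z (Or.inr (Or.inl hz)) rfl
      · subst hj; exact n2.1 hz
      · exact n5 z hz w (Or.inl rfl) hj
      · exact n5 z hz z (Or.inr hj) rfl
    · rw [Function.update_of_ne hji] at hj
      exact hP.sys.disj i j (Ne.symm hji) z (by rw [hi]; simp [hz]) hj

/-- **Proof.** As `fan_cross` (AC/FanChord.lean). -/
theorem path_cross {k : ℕ} {R A C L : Finset V} {P : Fin k → List V}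
    (hP : MinSys G R A C L P) {i j : Fin k} (hij : i ≠ j) {l1 l2 l3 m1 m2 m3 : List V}
    {v v' w w' : V} (hi : P i = l1 ++ v :: (l2 ++ v' :: l3))
    (hj : P j = m1 ++ w' :: (m2 ++ w :: m3)) (h1 : G.Adj v w) (h2 : G.Adj v' w') :
    (∀ z ∈ l2, z ∈ L) ∧ (∀ z ∈ m2, z ∈ L) := by
  have hpi := hP.sys.path i
  have hpj := hP.sys.path j
  rw [hi] at hpi
  rw [hj] at hpj
  have ei : l1 ++ v :: (l2 ++ v' :: l3) = (l1 ++ v :: l2) ++ v' :: l3 := by simp
  have ej : m1 ++ w' :: (m2 ++ w :: m3) = (m1 ++ w' :: m2) ++ w :: m3 := by simp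
  have hpi2 := hpi
  rw [ei] at hpi2
  have hpj2 := hpj
  rw [ej] at hpj2
  have hdis : ∀ u, u ∈ P i → u ∉ P j := hP.sys.disj i j hij
  have hmi : ∀ u, u ∈ P i ↔ (u ∈ l1 ∨ u = v ∨ u ∈ l2 ∨ u = v' ∨ u ∈ l3) := by
    intro u; rw [hi]; simp
  have hmj : ∀ u, u ∈ P j ↔ (u ∈ m1 ∨ u = w' ∨ u ∈ m2 ∨ u = w ∨ u ∈ m3) := by
    intro u; rw [hj]; simp
  set p1 := l1 ++ v :: w :: m3 with hp1
  set p2 := m1 ++ w' :: v' :: l3 with hp2
  have hm1 : ∀ u, u ∈ p1 ↔ (u ∈ l1 ∨ u = v ∨ u = w ∨ u ∈ m3) := by
    intro u; rw [hp1]; simp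
  have hm2 : ∀ u, u ∈ p2 ↔ (u ∈ m1 ∨ u = w' ∨ u = v' ∨ u ∈ l3) := by
    intro u; rw [hp2]; simp
  have hnew1 : PathL G R A C p1 := by
    refine PathL.splice G hpi hpj2 h1 ?_
    intro a ha hb
    rw [List.mem_append, List.mem_singleton] at ha
    rw [List.mem_cons] at hb
    refine hdis a ((hmi a).2 ?_) ((hmj a).2 ?_) <;> tauto
  have hnew2 : PathL G R A C p2 := by
    refine PathL.splice G hpj hpi2 h2.symm ?_
    intro a ha hb
    rw [List.mem_append, List.mem_singleton] at ha
    rw [List.mem_cons] at hb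
    refine hdis a ((hmi a).2 ?_) ((hmj a).2 ?_) <;> tauto
  have ndi : (∀ z ∈ l2, z ∉ p1 ∧ z ∉ p2) ∧ (∀ z, z ∈ p1 → z ∈ p2 → z ∈ P i → False) := by
    have hnd := hpi.nodup
    simp only [List.nodup_append, List.nodup_cons, List.mem_append, List.mem_cons,
      not_or] at hnd
    obtain ⟨n1, ⟨n2, n3, n4, n5⟩, n6⟩ := hnd
    refine ⟨fun z hz => ⟨?_, ?_⟩, ?_⟩
    · rw [hm1]
      rintro (h | h | h | h)
      · exact n6 z h z (Or.inr (Or.inl hz)) rfl
      · subst h; exact n2.1 hz
      · exact hdis z ((hmi z).2 (by tauto)) ((hmj z).2 (by tauto))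
      · exact hdis z ((hmi z).2 (by tauto)) ((hmj z).2 (by tauto))
    · rw [hm2]
      rintro (h | h | h | h)
      · exact hdis z ((hmi z).2 (by tauto)) ((hmj z).2 (by tauto))
      · exact hdis z ((hmi z).2 (by tauto)) ((hmj z).2 (by tauto))
      · exact n5 z hz v' (Or.inl rfl) h
      · exact n5 z hz z (Or.inr h) rfl
    · intro z h1' h2' hzi
      have hzj : z ∉ P j := hdis z hzi
      rw [hm1] at h1'
      rw [hm2] at h2'
      have a1 : z ∈ l1 ∨ z = v := by
        rcases h1' with h | h | h | h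
        · exact Or.inl h
        · exact Or.inr h
        · exact absurd ((hmj z).2 (by tauto)) hzj
        · exact absurd ((hmj z).2 (by tauto)) hzj
      have a2 : z = v' ∨ z ∈ l3 := by
        rcases h2' with h | h | h | h
        · exact absurd ((hmj z).2 (by tauto)) hzj
        · exact absurd ((hmj z).2 (by tauto)) hzj
        · exact Or.inl h
        · exact Or.inr h
      rcases a1 with a1 | a1
      · rcases a2 with a2 | a2
        · exact n6 z a1 v' (Or.inr (Or.inr (Or.inl rfl))) a2
        · exact n6 z a1 z (Or.inr (Or.inr (Or.inr a2))) rfl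
      · subst a1
        rcases a2 with a2 | a2
        · exact n2.2.1 a2
        · exact n2.2.2 a2
  have ndj : (∀ z ∈ m2, z ∉ p1 ∧ z ∉ p2) ∧ (∀ z, z ∈ p1 → z ∈ p2 → z ∈ P j → False) := by
    have hnd := hpj.nodup
    simp only [List.nodup_append, List.nodup_cons, List.mem_append, List.mem_cons,
      not_or] at hnd
    obtain ⟨n1, ⟨n2, n3, n4, n5⟩, n6⟩ := hnd
    refine ⟨fun z hz => ⟨?_, ?_⟩, ?_⟩
    · rw [hm1]
      rintro (h | h | h | h)
      · exact hdis z ((hmi z).2 (by tauto)) ((hmj z).2 (by tauto))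
      · exact hdis z ((hmi z).2 (by tauto)) ((hmj z).2 (by tauto))
      · exact n5 z hz w (Or.inl rfl) h
      · exact n5 z hz z (Or.inr h) rfl
    · rw [hm2]
      rintro (h | h | h | h)
      · exact n6 z h z (Or.inr (Or.inl hz)) rfl
      · subst h; exact n2.1 hz
      · exact hdis z ((hmi z).2 (by tauto)) ((hmj z).2 (by tauto))
      · exact hdis z ((hmi z).2 (by tauto)) ((hmj z).2 (by tauto))
    · intro z h1' h2' hzj
      have hzi : z ∉ P i := fun h => hdis z h hzj
      rw [hm1] at h1'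
      rw [hm2] at h2'
      have a2 : z ∈ m1 ∨ z = w' := by
        rcases h2' with h | h | h | h
        · exact Or.inl h
        · exact Or.inr h
        · exact absurd ((hmi z).2 (by tauto)) hzi
        · exact absurd ((hmi z).2 (by tauto)) hzi
      have a1 : z = w ∨ z ∈ m3 := by
        rcases h1' with h | h | h | h
        · exact absurd ((hmi z).2 (by tauto)) hzi
        · exact absurd ((hmi z).2 (by tauto)) hzi
        · exact Or.inl h
        · exact Or.inr h
      rcases a2 with a2 | a2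
      · rcases a1 with a1 | a1
        · exact n6 z a2 w (Or.inr (Or.inr (Or.inl rfl))) a1
        · exact n6 z a2 z (Or.inr (Or.inr (Or.inr a1))) rfl
      · subst a2
        rcases a1 with a1 | a1
        · exact n2.2.1 a1
        · exact n2.2.2 a1
  have hs1 : ∀ u ∈ p1, u ∈ P i ∨ u ∈ P j := by
    intro u hu
    rw [hm1] at hu
    rw [hmi, hmj]
    tauto
  have hs2 : ∀ u ∈ p2, u ∈ P i ∨ u ∈ P j := by
    intro u hu
    rw [hm2] at hu
    rw [hmi, hmj]
    tauto
  let P' : Fin k → List V := Function.update (Function.update P i p1) j p2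
  have e1 : P' i = p1 := by
    simp only [P']
    rw [Function.update_of_ne hij, Function.update_self]
  have e2 : P' j = p2 := by simp only [P']; rw [Function.update_self]
  have e3 : ∀ a, a ≠ i → a ≠ j → P' a = P a := by
    intro a h h'
    simp only [P']
    rw [Function.update_of_ne h', Function.update_of_ne h]
  have hdj12 : ∀ u ∈ p1, u ∉ p2 := by
    intro u hu hu'
    rcases hs1 u hu with h | h
    · exact ndi.2 u hu hu' h
    · exact ndj.2 u hu hu' h
  have hdo : ∀ a, a ≠ i → a ≠ j → ∀ u ∈ P a, u ∉ p1 ∧ u ∉ p2 := by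
    intro a h h' u hu
    refine ⟨fun hu' => ?_, fun hu' => ?_⟩
    · rcases hs1 u hu' with h2' | h2'
      · exact hP.sys.disj a i h u hu h2'
      · exact hP.sys.disj a j h' u hu h2'
    · rcases hs2 u hu' with h2' | h2'
      · exact hP.sys.disj a i h u hu h2'
      · exact hP.sys.disj a j h' u hu h2'
  have hF : Sys G R A C P' := by
    refine ⟨fun a => ?_, fun a b hab u hu hu' => ?_⟩
    · by_cases ha : a = i
      · subst ha; rw [e1]; exact hnew1
      · by_cases ha' : a = j
        · subst ha'; rw [e2]; exact hnew2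
        · rw [e3 a ha ha']; exact hP.sys.path a
    · by_cases ha : a = i
      · subst ha
        rw [e1] at hu
        by_cases hb : b = j
        · subst hb; rw [e2] at hu'; exact hdj12 u hu hu'
        · rw [e3 b (Ne.symm hab) hb] at hu'
          exact (hdo b (Ne.symm hab) hb u hu').1 hu
      · by_cases ha' : a = j
        · subst ha'
          rw [e2] at hu
          by_cases hb : b = i
          · subst hb; rw [e1] at hu'; exact hdj12 u hu' hu
          · rw [e3 b hb (Ne.symm hab)] at hu'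
            exact (hdo b hb (Ne.symm hab) u hu').2 hu
        · rw [e3 a ha ha'] at hu
          by_cases hb : b = i
          · subst hb; rw [e1] at hu'; exact (hdo a ha ha' u hu).1 hu'
          · by_cases hb' : b = j
            · subst hb'; rw [e2] at hu'; exact (hdo a ha ha' u hu).2 hu'
            · rw [e3 b hb hb'] at hu'
              exact hP.sys.disj a b hab u hu hu'
  have hsub : ∀ a, ∀ u ∈ P' a, ∃ b, u ∈ P b := by
    intro a u hu
    by_cases ha : a = i
    · subst ha
      rw [e1] at hu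
      rcases hs1 u hu with h | h
      · exact ⟨_, h⟩
      · exact ⟨_, h⟩
    · by_cases ha' : a = j
      · subst ha'
        rw [e2] at hu
        rcases hs2 u hu with h | h
        · exact ⟨_, h⟩
        · exact ⟨_, h⟩
      · rw [e3 a ha ha'] at hu; exact ⟨a, hu⟩
  have hout : ∀ z, (z ∈ P i ∨ z ∈ P j) → z ∉ p1 → z ∉ p2 → ∀ a, z ∉ P' a := by
    intro z hz h1' h2' a ha
    by_cases hai : a = i
    · subst hai; rw [e1] at ha; exact h1' ha
    · by_cases haj : a = j
      · subst haj; rw [e2] at ha; exact h2' ha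
      · rw [e3 a hai haj] at ha
        rcases hz with hz | hz
        · exact hP.sys.disj a i hai z ha hz
        · exact hP.sys.disj a j haj z ha hz
  constructor
  · intro z hz
    have hzi : z ∈ P i := (hmi z).2 (by tauto)
    exact hP.no_drop G hF hsub hzi (hout z (Or.inl hzi) (ndi.1 z hz).1 (ndi.1 z hz).2)
  · intro z hz
    have hzj : z ∈ P j := (hmj z).2 (by tauto)
    exact hP.no_drop G hF hsub hzj (hout z (Or.inr hzj) (ndj.1 z hz).1 (ndj.1 z hz).2)

/-- **Proof.** As `fan_count` (AC/FanCount.lean). -/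
theorem path_count {k : ℕ} {R A C L : Finset V} {P : Fin k → List V}
    (hP : MinSys G R A C L P) :
    ∑ v ∈ VP P \ L, dg G (VP P \ L) v ≤ 4 * k * (VP P \ L).card := by
  set q : Fin k → Finset V := fun i => (P i).toFinset \ L with hq
  have hU : VP P \ L = univ.biUnion q := by
    ext v
    simp only [VP, hq, mem_sdiff, mem_biUnion, mem_univ, true_and]
    constructor
    · rintro ⟨⟨i, hi⟩, hv⟩
      exact ⟨i, hi, hv⟩
    · rintro ⟨i, hi, hv⟩
      exact ⟨⟨i, hi⟩, hv⟩
  have hdisj : ∀ i ∈ (univ : Finset (Fin k)), ∀ j ∈ (univ : Finset (Fin k)), i ≠ j →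
      Disjoint (q i) (q j) := by
    intro i _ j _ hij
    rw [disjoint_left]
    intro v hv hv'
    simp only [hq, mem_sdiff, List.mem_toFinset] at hv hv'
    exact hP.sys.disj i j hij v hv.1 hv'.1
  have hcard : (VP P \ L).card = ∑ i, (q i).card := by
    rw [hU, card_biUnion hdisj]
  have hdg : ∀ v, dg G (VP P \ L) v ≤ ∑ j, dg G (q j) v := by
    intro v
    unfold dg
    rw [hU, filter_biUnion]
    exact card_biUnion_le
  have hterm : ∀ i j, ∑ v ∈ q i, dg G (q j) v ≤ 2 * ((q i).card + (q j).card) := by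
    intro i j
    by_cases hij : i = j
    · subst hij
      have h1 := count_same G (p := P i) (L := L) (hP.sys.path i).nodup
        (fun l1 l2 l3 v w hp ha => path_chord G hP hp ha)
      simp only [hq]
      omega
    · exact count_cross G (hP.sys.path i).nodup (hP.sys.path j).nodup
        (fun l1 l2 l3 m1 m2 m3 v v' w w' h1 h2 h3 h4 => path_cross G hP hij h1 h2 h3 h4)
  have h1 : ∑ v ∈ VP P \ L, dg G (VP P \ L) v ≤ ∑ i, ∑ j, ∑ v ∈ q i, dg G (q j) v := by
    calc ∑ v ∈ VP P \ L, dg G (VP P \ L) v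
        ≤ ∑ v ∈ VP P \ L, ∑ j, dg G (q j) v := sum_le_sum fun v _ => hdg v
      _ = ∑ i, ∑ v ∈ q i, ∑ j, dg G (q j) v := by rw [hU, sum_biUnion hdisj]
      _ = ∑ i, ∑ j, ∑ v ∈ q i, dg G (q j) v := sum_congr rfl fun i _ => sum_comm
  refine h1.trans ?_
  calc ∑ i, ∑ j, ∑ v ∈ q i, dg G (q j) v
      ≤ ∑ i : Fin k, ∑ j : Fin k, 2 * ((q i).card + (q j).card) :=
        sum_le_sum fun i _ => sum_le_sum fun j _ => hterm i j
    _ = 4 * k * (VP P \ L).card := by
        rw [hcard]
        simp only [mul_add, sum_add_distrib, sum_const, card_univ, Fintype.card_fin, smul_eq_mul]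
        rw [← mul_sum, ← mul_sum]
        ring

end

end Pool.Agent.Lib_MP_f6e057_co.AC
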