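import Pool.Agent.Lib_MP_f6e057_co.LC.Defs
import Pool.Agent.Lib_MP_f6e057_co.AC.FanDeg

/-!
# A vertex outside a minimal path system has few neighbours on it
-/

set_option autoImplicit false
set_option linter.unusedSectionVars false

namespace Pool.Agent.Lib_MP_f6e057_co.AC

open Finset

section
variable {V : Type*} [Fintype V] [DecidableEq V] (G : SimpleGraph V) [DecidableRel G.Adj]

/-- **Proof.** As `fan_deg` in `AC/FanDeg.lean`, with `univ.erase x`, `G.neighborFinset x`, `H` replaced by
`univ`, `A`, `C`. -/
theorem path_deg {k : ℕ} {A C L : Finset V} {o : V} {P : Fin k → List V}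
    (hP : MinSys G univ A C L P) (hoL : o ∉ L) (hoP : ∀ i, o ∉ P i) (i : Fin k) :
    dg G ((P i).toFinset \ L) o ≤ 3 := by
  classical
  by_contra hcon
  push Not at hcon
  set F : Finset V := ((P i).toFinset \ L).filter fun w => G.Adj o w with hFdef
  have hFc : 4 ≤ F.card := hcon
  have hFm : ∀ f ∈ F, f ∈ P i ∧ f ∉ L ∧ G.Adj o f := by
    intro f hf
    rw [hFdef, mem_filter, mem_sdiff, List.mem_toFinset] at hf
    exact ⟨hf.1.1, hf.1.2, hf.2⟩
  obtain ⟨l1, a, l2, d, l3, hp, haF, hdF, hmid⟩ :=
    exists_first_last F (P i) (by omega) fun f hf => (hFm f hf).1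
  obtain ⟨b, hb, c, hc, hbc⟩ : ∃ b ∈ (F.erase a).erase d, ∃ c ∈ (F.erase a).erase d, b ≠ c := by
    rw [← one_lt_card]
    have h1 := pred_card_le_card_erase (s := F) (a := a)
    have h2 := pred_card_le_card_erase (s := F.erase a) (a := d)
    omega
  rw [mem_erase, mem_erase] at hb hc
  have hb2 : b ∈ l2 := hmid b hb.2.2 hb.2.1 hb.1
  have hc2 : c ∈ l2 := hmid c hc.2.2 hc.2.1 hc.1
  have hpath := hP.sys.path i
  have hnd := hpath.nodup
  rw [hp] at hnd
  set p' : List V := l1 ++ a :: o :: d :: l3 with hp'
  have hmp' : ∀ v ∈ p', v = o ∨ (v ∈ P i ∧ v ∉ l2) := by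
    intro v hv
    by_cases hvo : v = o
    · exact Or.inl hvo
    refine Or.inr ⟨?_, ?_⟩
    · rw [hp]
      simp only [hp', List.mem_append, List.mem_cons] at hv ⊢
      tauto
    · intro hv2
      simp only [hp', List.mem_append, List.mem_cons] at hv
      simp only [List.nodup_append, List.nodup_cons, List.mem_append, List.mem_cons, not_or] at hnd
      rcases hv with h1 | h1 | h1 | h1 | h1
      · exact hnd.2.2 v h1 v (by simp [hv2]) rfl
      · exact hnd.2.1.1.1 (h1 ▸ hv2)
      · exact hvo h1
      · exact hnd.2.1.2.2.2 v hv2 v (by simp [h1]) rfl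
      · exact hnd.2.1.2.2.2 v hv2 v (by simp [h1]) rfl
  have hpath' : PathL G univ A C p' := by
    refine ⟨?_, ?_, ?_, ?_, ?_⟩
    · have hch := hpath.chain
      rw [hp, List.isChain_split] at hch
      have h1 : List.IsChain G.Adj (d :: l3) := by
        have h2 := hch.2
        rw [show a :: (l2 ++ d :: l3) = (a :: l2) ++ d :: l3 from rfl, List.isChain_split] at h2
        exact h2.2
      rw [hp', List.isChain_split]
      refine ⟨hch.1, ?_⟩
      rw [List.isChain_cons_cons, List.isChain_cons_cons]
      exact ⟨(hFm a haF).2.2.symm, (hFm d hdF).2.2, h1⟩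
    · have h1 : (o :: ((l1 ++ [a]) ++ (d :: l3))).Nodup := by
        rw [List.nodup_cons]
        constructor
        · intro ho
          apply hoP i
          rw [hp]
          simp only [List.mem_append, List.mem_cons, List.not_mem_nil, or_false] at ho ⊢
          tauto
        · refine hnd.sublist ?_
          rw [List.append_assoc]
          refine List.Sublist.append (List.Sublist.refl _) ?_
          rw [List.singleton_append]
          exact List.Sublist.cons_cons _ (List.sublist_append_right _ _)
      rw [hp', show l1 ++ a :: o :: d :: l3 = (l1 ++ [a]) ++ o :: (d :: l3) by simp]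
      exact (List.perm_middle.nodup_iff).2 h1
    · intro v _
      exact mem_univ _
    · obtain ⟨s, hs, hs'⟩ := hpath.head
      refine ⟨s, hs, ?_⟩
      rw [← hs', hp, hp']
      cases l1 <;> simp
    · obtain ⟨s, hs, hs'⟩ := hpath.last
      refine ⟨s, hs, ?_⟩
      have e : ∀ q : List V, (q ++ d :: l3).getLast? = (d :: l3).getLast? := by
        intro q
        rw [List.getLast?_append, List.getLast?_cons]
        simp
      rw [← hs', hp]
      exact ((congrArg List.getLast? (show p' = (l1 ++ [a, o]) ++ (d :: l3) by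
        simp [hp'])).trans (e _)).trans ((congrArg List.getLast?
          (show l1 ++ a :: (l2 ++ d :: l3) = (l1 ++ a :: l2) ++ (d :: l3) by simp)).trans
            (e _)).symm
  have hfan' : Sys G univ A C (Function.update P i p') := by
    refine ⟨?_, ?_⟩
    · intro j
      by_cases hj : j = i
      · subst hj
        rw [Function.update_self]
        exact hpath'
      · rw [Function.update_of_ne hj]
        exact hP.sys.path j
    · intro j j' hjj v hv
      by_cases hj : j = i
      · subst hj
        rw [Function.update_self] at hv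
        rw [Function.update_of_ne (Ne.symm hjj)]
        rcases hmp' v hv with rfl | h1
        · exact hoP j'
        · exact hP.sys.disj j j' hjj v h1.1
      · rw [Function.update_of_ne hj] at hv
        by_cases hj' : j' = i
        · subst hj'
          rw [Function.update_self]
          intro hv'
          rcases hmp' v hv' with rfl | h1
          · exact hoP j hv
          · exact hP.sys.disj j j' hjj v hv h1.1
        · rw [Function.update_of_ne hj']
          exact hP.sys.disj j j' hjj v hv
  have hmin := hP.min _ hfan'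
  have hbi := hFm b hb.2.2
  have hci := hFm c hc.2.2
  have hsub : VP (Function.update P i p') \ L ⊆ insert o (((VP P \ L).erase b).erase c) := by
    intro v hv
    rw [mem_sdiff, VP, mem_biUnion] at hv
    obtain ⟨⟨j, -, hj⟩, hvL⟩ := hv
    rw [List.mem_toFinset] at hj
    by_cases hvo : v = o
    · exact mem_insert.2 (Or.inl hvo)
    refine mem_insert_of_mem ?_
    rw [mem_erase, mem_erase, mem_sdiff, VP, mem_biUnion]
    by_cases hji : j = i
    · subst hji
      rw [Function.update_self] at hj
      rcases hmp' v hj with h1 | h1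
      · exact absurd h1 hvo
      · exact ⟨fun h2 => h1.2 (h2 ▸ hc2), fun h2 => h1.2 (h2 ▸ hb2),
          ⟨j, mem_univ _, List.mem_toFinset.2 h1.1⟩, hvL⟩
    · rw [Function.update_of_ne hji] at hj
      have h1 := hP.sys.disj j i hji v hj
      exact ⟨fun h2 => h1 (h2 ▸ hci.1), fun h2 => h1 (h2 ▸ hbi.1),
          ⟨j, mem_univ _, List.mem_toFinset.2 hj⟩, hvL⟩
  have hbm : b ∈ VP P \ L := by
    rw [mem_sdiff, VP, mem_biUnion]
    exact ⟨⟨i, mem_univ _, List.mem_toFinset.2 hbi.1⟩, hbi.2.1⟩
  have hcm : c ∈ (VP P \ L).erase b := by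
    rw [mem_erase, mem_sdiff, VP, mem_biUnion]
    exact ⟨hbc.symm, ⟨i, mem_univ _, List.mem_toFinset.2 hci.1⟩, hci.2.1⟩
  have h1 := (card_le_card hsub).trans (card_insert_le _ _)
  have h2 := card_erase_add_one hbm
  have h3 := card_erase_add_one hcm
  omega

theorem path_deg_all {k : ℕ} {A C L : Finset V} {o : V} {P : Fin k → List V}
    (hP : MinSys G univ A C L P) (hoL : o ∉ L) (hoP : ∀ i, o ∉ P i) :
    dg G (VP P \ L) o ≤ 3 * k := by
  classical
  have h1 : (VP P \ L).filter (fun w => G.Adj o w) =
      (univ : Finset (Fin k)).biUnion fun i => ((P i).toFinset \ L).filter fun w => G.Adj o w := by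
    ext v
    simp only [VP, mem_filter, mem_sdiff, mem_biUnion, mem_univ, true_and]
    constructor
    · rintro ⟨⟨⟨i, hi⟩, h2⟩, h3⟩
      exact ⟨i, ⟨hi, h2⟩, h3⟩
    · rintro ⟨i, ⟨hi, h2⟩, h3⟩
      exact ⟨⟨⟨i, hi⟩, h2⟩, h3⟩
  have h2 := card_biUnion_le_card_mul (univ : Finset (Fin k))
    (fun i => ((P i).toFinset \ L).filter fun w => G.Adj o w) 3
    (fun i _ => path_deg G hP hoL hoP i)
  rw [← h1, card_univ, Fintype.card_fin] at h2
  unfold dg
  omega

end

end Pool.Agent.Lib_MP_f6e057_co.AC
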