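import Pool.Agent.Lib_MP_f6e057_co.LC.Defs
import Pool.Agent.Lib_MP_f6e057_co.AC.Menger
import Pool.Agent.Lib_MP_f6e057_co.Basic

/-!
# Disjoint paths between two large sets of a k-connected graph
-/

set_option autoImplicit false
set_option linter.unusedSectionVars false

namespace Pool.Agent.Lib_MP_f6e057_co.AC

open Finset

section
variable {V : Type*} [Fintype V] [DecidableEq V] (G : SimpleGraph V) [DecidableRel G.Adj]

/-- **Proof** (compare `AC/FanExists.lean`). `menger` with `R = univ`; if `|X| < k` there are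
`a ∈ A \ X`, `c ∈ C \ X`, and `G.induce Xᶜ` is connected. -/
theorem exists_sys {k : ℕ} (hG : KConnected k G) {A C : Finset V} (hA : k ≤ A.card)
    (hC : k ≤ C.card) : ∃ P : Fin k → List V, Sys G univ A C P := by
  apply menger
  intro X hX
  classical
  have hconn := hG.2 (X : Set V) (by rwa [Set.ncard_coe_finset])
  obtain ⟨a, haA, haX⟩ : ∃ a ∈ A, a ∉ X := by
    by_contra hcon
    push Not at hcon
    have := card_le_card (show A ⊆ X from hcon)
    omega
  obtain ⟨c, hcC, hcX⟩ : ∃ c ∈ C, c ∉ X := by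
    by_contra hcon
    push Not at hcon
    have := card_le_card (show C ⊆ X from hcon)
    omega
  obtain ⟨w⟩ := hconn.preconnected ⟨a, by simpa using haX⟩ ⟨c, by simpa using hcX⟩
  obtain ⟨p, hp⟩ : ∃ p : (G.induce ((X : Set V)ᶜ)).Walk ⟨a, by simpa using haX⟩
      ⟨c, by simpa using hcX⟩, p.IsPath := ⟨w.toPath.1, w.toPath.2⟩
  refine ⟨p.support.map Subtype.val, ⟨?_, ?_, ?_, ?_, ?_⟩, ?_⟩
  · rw [List.isChain_map]
    exact p.isChain_adj_support.imp fun u v h => by simpa using h
  · exact (List.nodup_map_iff Subtype.val_injective).mpr hp.support_nodup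
  · intro v _
    exact mem_univ _
  · refine ⟨a, haA, ?_⟩
    rw [List.head?_map]
    cases p <;> simp
  · refine ⟨c, hcC, ?_⟩
    rw [List.getLast?_map, List.getLast?_eq_some_getLast (by simp : p.support ≠ [])]
    simp
  · intro v hv
    rw [List.mem_map] at hv
    obtain ⟨u, -, rfl⟩ := hv
    exact fun hh => u.2 (mem_coe.mpr hh)

end

end Pool.Agent.Lib_MP_f6e057_co.AC
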