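import Pool.Agent.Lib_MP_f6e057_co.LC.Thin
import Pool.Agent.Lib_MP_f6e057_co.LC.JoinCar
import Pool.Agent.Lib_MP_f6e057_co.LC.SysExists
import Pool.Agent.Lib_MP_f6e057_co.LC.PathDeg
import Pool.Agent.Lib_MP_f6e057_co.LC.PathCount
import Pool.Agent.Lib_MP_f6e057_co.AC.EmbedIn

/-!
# The solid carrier can be enlarged by a piece
-/

set_option autoImplicit false
set_option linter.unusedSectionVars false

namespace Pool.Agent.Lib_MP_f6e057_co.AC

open Finset

section
variable {V : Type*} [Fintype V] [DecidableEq V] (G : SimpleGraph V) [DecidableRel G.Adj]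

/-- **Proof.** `F = univ \ L1` has more than `|W|` elements; every vertex of `F` has at least
`4 k` neighbours in `F`. `mader_thin` with `q = k`, `g = 2 k` gives `J ⊆ F`. `|J| > 2 k`. `exists_sys`
gives `k` disjoint paths from `J` to `H`; choose them with `|VP P \ (L1 ∪ J)|` minimal:
`MinSys G univ J H (L1 ∪ J) P`. `Q0 = VP P \ (L1 ∪ J)`, `O = univ \ (L1 ∪ J ∪ VP P)`.
(1) `O ≠ ∅`. Suppose `O = ∅`. If `Q0 = ∅` then `univ = L1 ∪ J`; take `v ∈ J` with
`dg G J v ≤ 4 k`: `degree v ≤ 6 k + 1 + 4 k`, contradiction. If `Q0 ≠ ∅`, every `v ∈ Q0` has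
`dg G Q0 v ≥ degree v - (6 k + 1) - 6 k ≥ 4 k + 1`, contradicting `path_count`.
(2) every `o ∈ O` has `dg G O o ≥ degree o - (6 k + 1) - 6 k - 3 k ≥ |W| + k - 1 + 1`, so `embed_in` gives a
copy `g'` in `O`.
(3) `(g', H, B ∪ J, L ∪ J ∪ VP P)` is valid: `join_car`, solid because `dg G (B ∪ J) v ≥ dg G B v` for
`v ∈ B` and `≥ dg G J v > 2 k` for `v ∈ J`; `g' x ∉ L` since `L ⊆ L1`. `B ∪ J` is larger than `B`
(`J` is nonempty and disjoint from `L1 ⊇ B`), contradicting `h.maxB`. -/
theorem stepDS {W : Type} [Fintype W] {T : SimpleGraph W} (hT : T.IsTree) {k : ℕ} (hk : 1 ≤ k)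
    (hG : KConnected k G) {g : W → V} {H B L L1 : Finset V} (h : OptS G T k g H B L)
    (hL : L ⊆ L1) (hd : Fintype.card W + 16 * k + 1 ≤ G.minDegree)
    (hne : Fintype.card W < (univ \ L1).card)
    (hc : ∀ u ∉ L1, dg G L1 u ≤ 6 * k + 1) : False := by
  classical
  have : Nonempty W := hT.1.nonempty
  have hW : 1 ≤ Fintype.card W := Fintype.card_pos
  have hcar := h.val.car
  -- the piece
  have hF : (univ \ L1).Nonempty := card_pos.1 (by omega)
  have hFd : ∀ v ∈ univ \ L1, 2 * (2 * k) ≤ dg G (univ \ L1) v := by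
    intro v hv
    have h1 := degree_eq G L1 v
    have h2 := G.minDegree_le_degree v
    have h3 := hc v (mem_sdiff.1 hv).2
    have h4 : L1ᶜ = univ \ L1 := by
      ext w
      simp
    rw [h4] at h1
    omega
  obtain ⟨J, hJF, hJne, hJd, hJs, hJt, v0, hv0, hv0d⟩ := mader_thin G hF hk (le_refl (2 * k)) hFd
  have hJ1 : ∀ v ∈ J, v ∉ L1 := fun v hv => (mem_sdiff.1 (hJF hv)).2
  have hJc : 2 * k < J.card := by
    obtain ⟨v, hv⟩ := hJne
    have h1 := hJd v hv
    have h2 := dg_lt_card G hv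
    omega
  -- a minimal path system
  have hex : ∃ n, ∃ P : Fin k → List V, Sys G univ J H P ∧ (VP P \ (L1 ∪ J)).card = n := by
    obtain ⟨P, hP⟩ := exists_sys G hG (A := J) (C := H) (by omega) hcar.car.big.le
    exact ⟨_, P, hP, rfl⟩
  obtain ⟨P, hPf, hPn⟩ := Nat.find_spec hex
  have hP : MinSys G univ J H (L1 ∪ J) P := ⟨hPf, fun P' hP' => by
    rw [hPn]
    exact Nat.find_min' hex ⟨P', hP', rfl⟩⟩
  set Q : Finset V := VP P \ (L1 ∪ J) with hQ
  set O : Finset V := univ \ (L1 ∪ J ∪ VP P) with hO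
  have hcov : L1ᶜ ⊆ J ∪ (Q ∪ O) := by
    intro v hv
    rw [mem_compl] at hv
    rw [mem_union, mem_union, hQ, hO, mem_sdiff, mem_sdiff, mem_union, mem_union, mem_union]
    by_cases h1 : v ∈ J
    · exact Or.inl h1
    · by_cases h2 : v ∈ VP P
      · refine Or.inr (Or.inl ⟨h2, ?_⟩)
        rintro (h3 | h3)
        · exact hv h3
        · exact h1 h3
      · refine Or.inr (Or.inr ⟨mem_univ v, ?_⟩)
        rintro ((h3 | h3) | h3)
        · exact hv h3
        · exact h1 h3
        · exact h2 h3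
  have hdeg : ∀ v ∉ L1, Fintype.card W + 10 * k ≤ dg G J v + (dg G Q v + dg G O v) := by
    intro v hv
    have h1 := degree_eq G L1 v
    have h2 := dg_mono G hcov v
    have h3 := dg_union_le G J (Q ∪ O) v
    have h4 := dg_union_le G Q O v
    have h6 := G.minDegree_le_degree v
    have h7 := hc v hv
    omega
  have hdeg2 : ∀ v, v ∉ L1 → v ∉ J → Fintype.card W + 4 * k ≤ dg G Q v + dg G O v := by
    intro v hv hvJ
    have h1 := hdeg v hv
    have h2 := hJt v (mem_sdiff.2 ⟨mem_univ v, hv⟩) hvJ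
    omega
  have hne2 : O.Nonempty := by
    rw [nonempty_iff_ne_empty]
    intro hO0
    have h3 : ∀ v, dg G (∅ : Finset V) v = 0 := by
      intro v
      have h3 := dg_le_card G (∅ : Finset V) v
      rw [card_empty] at h3
      omega
    have h1 : ∀ v ∈ Q, 4 * k + 1 ≤ dg G Q v := by
      intro v hv
      have h2 := (mem_sdiff.1 hv).2
      rw [mem_union, not_or] at h2
      have h2 := hdeg2 v h2.1 h2.2
      rw [hO0, h3 v] at h2
      omega
    have h2 := sum_le_sum h1
    rw [sum_const, smul_eq_mul] at h2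
    have h4 := path_count G hP
    rw [← hQ] at h4
    have h6 : Q.card * (4 * k + 1) ≤ 4 * k * Q.card := h2.trans h4
    have h7 : Q.card * (4 * k + 1) = 4 * k * Q.card + Q.card := by ring
    have h8 : Q = ∅ := card_eq_zero.1 (by omega)
    have h9 := hdeg v0 (hJ1 v0 hv0)
    rw [hO0, h8, h3 v0] at h9
    omega
  obtain ⟨g', hg', hgO⟩ := embed_in G hT hne2 (fun o ho => by
    have h1 := (mem_sdiff.1 ho).2
    rw [mem_union, mem_union, not_or, not_or] at h1
    obtain ⟨⟨h2, h3⟩, h4⟩ := h1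
    have h5 := hdeg2 o h2 h3
    have h6 := path_deg_all G hP (o := o) (by
      rw [mem_union, not_or]
      exact ⟨h2, h3⟩) (fun i hi => h4 (by
      unfold VP
      rw [mem_biUnion]
      exact ⟨i, mem_univ i, List.mem_toFinset.2 hi⟩))
    rw [← hQ] at h6
    omega)
  have hval : ValidS G T k g' H (B ∪ J) (L ∪ J ∪ VP P) := by
    refine ⟨⟨join_car G hcar.car (fun U hU hUn hUs => (hJs U hU hUn hUs).le) hPf, ?_⟩, hg', ?_⟩
    · intro v hv
      rcases mem_union.1 hv with h1 | h1
      · exact (hcar.solid v h1).trans (dg_mono G subset_union_left v)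
      · exact (hJd v h1).le.trans (dg_mono G subset_union_right v)
    · intro y hy
      have h1 := (mem_sdiff.1 (hgO y)).2
      apply h1
      rw [mem_union, mem_union] at hy ⊢
      rcases hy with (h2 | h2) | h2
      · exact Or.inl (Or.inl (hL h2))
      · exact Or.inl (Or.inr h2)
      · exact Or.inr h2
  have h1 := h.maxB _ _ _ _ hval
  have hBJ : Disjoint B J := by
    rw [disjoint_left]
    intro v hv hvJ
    exact hJ1 v hvJ (hL (hcar.car.BL hv))
  rw [card_union_of_disjoint hBJ] at h1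
  omega

end

end Pool.Agent.Lib_MP_f6e057_co.AC
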