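import Pool.Agent.Lib_MP_f6e057_co.LC.StepB
import Pool.Agent.Lib_MP_f6e057_co.LC.StepC
import Pool.Agent.Lib_MP_f6e057_co.LC.StepD
import Pool.Agent.Lib_MP_f6e057_co.LC.OptExists

/-!
# Assembly of the linear bound
-/

set_option autoImplicit false
set_option linter.unusedSectionVars false

namespace Pool.Agent.Lib_MP_f6e057_co.AC

open Finset

/-- the maximal closure exists -/
theorem exists_max_clo {V W : Type} [Fintype V] [DecidableEq V] [Fintype W] (G : SimpleGraph V)
    [DecidableRel G.Adj] {T : SimpleGraph W} {k : ℕ} {g : W → V} {H B L : Finset V}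
    (h : OptS G T k g H B L) :
    ∃ (g' : W → V) (B1 L1 : Finset V), Clo G k H B L B1 L1 ∧ Exch.IsCopy T G g' ∧
      (∀ x, g' x ∉ L1) ∧
      ∀ (g2 : W → V) (B2 L2 : Finset V), Clo G k H B L B2 L2 → Exch.IsCopy T G g2 →
        (∀ x, g2 x ∉ L2) → L2.card ≤ L1.card := by
  classical
  obtain ⟨⟨g', B1, L1⟩, hm, hmax⟩ := exists_max_image
    (univ.filter fun s : (W → V) × Finset V × Finset V =>
      Clo G k H B L s.2.1 s.2.2 ∧ Exch.IsCopy T G s.1 ∧ ∀ x, s.1 x ∉ s.2.2)
    (fun s => s.2.2.card)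
    ⟨(g, B, L), by
      simp only [mem_filter, mem_univ, true_and]
      exact ⟨⟨h.val.car.car, subset_rfl, subset_rfl, fun v h1 h2 => absurd h1 h2⟩,
        h.val.copy, h.val.out⟩⟩
  simp only [mem_filter, mem_univ, true_and] at hm hmax
  exact ⟨g', B1, L1, hm.1, hm.2.1, hm.2.2, fun g2 B2 L2 h1 h2 h3 =>
    hmax (g2, B2, L2) ⟨h1, h2, h3⟩⟩

theorem linear {V W : Type} [Fintype V] [DecidableEq V] [Fintype W] (G : SimpleGraph V)
    [DecidableRel G.Adj] (T : SimpleGraph W) (hT : T.IsTree) {k : ℕ} (hk : 1 ≤ k)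
    (hG : KConnected k G)
    (hd : Fintype.card W + 16 * k + 1 ≤ G.minDegree) :
    ∃ φ : W ↪ V, (∀ u v, T.Adj u v → G.Adj (φ u) (φ v)) ∧
      KConnected k (G.induce (Set.range φ)ᶜ) := by
  classical
  obtain ⟨g0, H, B, L, h⟩ := exists_optS G hT hk
    (by omega : Fintype.card W + 4 * k ≤ G.minDegree)
  obtain ⟨g, B1, L1, hc, hcopy, hout, hmax⟩ := exists_max_clo G h
  have hinj := hcopy.1
  by_cases hne : Fintype.card W < (univ \ L1).card
  · exact (stepDS G hT hk hG h hc.sL hd hne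
      (stepBS G hT h hc hcopy hout hmax (by omega) hne)).elim
  · have hsub : univ.image g ⊆ univ \ L1 := by
      intro v hv
      obtain ⟨x, -, rfl⟩ := mem_image.1 hv
      exact mem_sdiff.2 ⟨mem_univ _, hout x⟩
    have hcard : (univ.image g).card = Fintype.card W := by
      rw [card_image_of_injective _ hinj, card_univ]
    have heq : univ.image g = univ \ L1 := eq_of_subset_of_card_le hsub (by omega)
    have hcov : ∀ v, v ∉ L1 → ∃ x, g x = v := by
      intro v hv
      have : v ∈ univ.image g := by rw [heq]; exact mem_sdiff.2 ⟨mem_univ _, hv⟩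
      obtain ⟨x, -, hx⟩ := mem_image.1 this
      exact ⟨x, hx⟩
    have hcar : Car G k H L1 L1 := stepCS G h hc hcopy hout hcov (by omega)
    have hL : L1 = (univ.image g)ᶜ := by
      rw [heq]
      ext v
      simp
    refine ⟨⟨g, hinj⟩, hcopy.2, ?_⟩
    rw [hL] at hcar
    have := kconn_of_car G hcar
    have hr : (Set.range (⟨g, hinj⟩ : W ↪ V))ᶜ = (((univ.image g : Finset V) : Set V))ᶜ := by
      simp
    rw [hr]
    exact this

end Pool.Agent.Lib_MP_f6e057_co.AC
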