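import Pool.Agent.Lib_MP_f6e057_co.LC.Defs

/-!
# Tight sets of solid carriers are not degenerate
-/

set_option autoImplicit false
set_option linter.unusedSectionVars false

namespace Pool.Agent.Lib_MP_f6e057_co.AC

open Finset

section
variable {V : Type*} [Fintype V] [DecidableEq V] (G : SimpleGraph V) [DecidableRel G.Adj]

variable {k : ℕ} {H B L M : Finset V} {b : V} {U R : Finset V}

/-- **Proof.** `A = U ∩ B` contains `b`; all `B`-neighbours of `b` are in `A.erase b` or in
`N_M(U)` (`B ⊆ M`), so `2 k ≤ (|A| - 1) + k`. -/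
theorem CarS.tight_card (h : CarS G k H B M) (hb : b ∈ B) (hU : Tight G k H M b U) :
    k + 1 ≤ (U ∩ B).card := by
  have hbU : b ∈ U ∩ B := mem_inter.2 ⟨hU.mem, hb⟩
  have h1 : (B.filter fun w => G.Adj b w) ⊆ (U ∩ B).erase b ∪ nbL G M U := by
    intro w hw
    rw [mem_filter] at hw
    rw [mem_union, mem_erase, mem_nbL]
    by_cases hwU : w ∈ U
    · left; exact ⟨hw.2.ne', mem_inter.2 ⟨hwU, hw.1⟩⟩
    · right; exact ⟨h.car.BL hw.1, hwU, b, hU.mem, hw.2⟩
  have h2 := card_le_card h1
  have h3 := card_union_le ((U ∩ B).erase b) (nbL G M U)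
  have h4 := card_erase_of_mem hbU
  have h5 : 0 < (U ∩ B).card := card_pos.mpr ⟨b, hbU⟩
  have h6 := h.solid b hb
  have h7 := hU.card
  unfold dg at h6
  omega

/-- **Proof.** By `Car.cut`, `U ∩ B ⊆ N(R)`, which has fewer than `k` elements; contradiction to
`CarS.tight_card`. -/
theorem CarS.no_cut (h : CarS G k H B M) (hR : Reg G k H M R) (hb : b ∈ B)
    (hU : Tight G k H M b U) : (nbL G M U ∩ R).card ≤ (nbL G M R ∩ U).card := by
  by_contra hcon
  push Not at hcon
  have h1 := h.car.cut G hR hb hU (by omega)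
  have h2 : U ∩ B ⊆ nbL G M R := by
    intro c hc
    rw [mem_inter] at hc
    exact h1 c hc.2 hc.1
  have h3 := card_le_card h2
  have h4 := h.tight_card G hb hU
  have h5 := hR.card
  omega

end

end Pool.Agent.Lib_MP_f6e057_co.AC
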