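import Pool.Agent.Lib_MP_f6e057_co.LC.CloInsert
import Pool.Agent.Lib_MP_f6e057_co.Exchange

/-!
# All vertices outside the maximal closure have few neighbours in it
-/

set_option autoImplicit false
set_option linter.unusedSectionVars false

namespace Pool.Agent.Lib_MP_f6e057_co.AC

open Finset

section
variable {V : Type*} [Fintype V] [DecidableEq V] (G : SimpleGraph V) [DecidableRel G.Adj]

/-- **Proof** (compare `AC/StepB.lean`). `Z = {z ∉ L1 | dg G L1 z > 6 k + 1}`. Every copy outside `L1`
covers `Z`: otherwise `clo_insert` contradicts `hmax`. If `Z ≠ ∅`, `Exch.exchange` for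
`G.induce {v | v ∉ L1}` gives a copy missing some `z ∈ Z`. -/
theorem stepBS {W : Type*} [Fintype W] {T : SimpleGraph W} (hT : T.IsTree) {k : ℕ}
    {g : W → V} {H B L B1 L1 : Finset V} (h : OptS G T k g H B L)
    (hc : Clo G k H B L B1 L1) {g' : W → V} (hg' : Exch.IsCopy T G g')
    (hout : ∀ x, g' x ∉ L1)
    (hmax : ∀ (g2 : W → V) (B2 L2 : Finset V), Clo G k H B L B2 L2 → Exch.IsCopy T G g2 →
      (∀ x, g2 x ∉ L2) → L2.card ≤ L1.card)
    (hd : Fintype.card W + (6 * k + 1) ≤ G.minDegree)
    (hne : Fintype.card W < (univ \ L1).card) :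
    ∀ u ∉ L1, dg G L1 u ≤ 6 * k + 1 := by
  classical
  intro u0 hu0
  by_contra hcon
  -- the graph outside the closure
  let S : Set V := {v | v ∉ L1}
  let G' : SimpleGraph S := G.induce S
  let Z : Finset S := univ.filter fun z => 6 * k + 1 < dg G L1 z.1
  have hZ : Z.Nonempty := ⟨⟨u0, hu0⟩, mem_filter.2 ⟨mem_univ _, by
    show 6 * k + 1 < dg G L1 u0
    omega⟩⟩
  have hcardS : Fintype.card S = (univ \ L1).card := by
    rw [← Fintype.card_coe]
    apply Fintype.card_congr
    exact Equiv.subtypeEquivRight (fun v => by simp [S])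
  have hdegS : ∀ v : S, v ∉ Z → Fintype.card W ≤ G'.degree v := by
    intro v hv
    have h1 : dg G L1 v.1 ≤ 6 * k + 1 := by
      by_contra h2
      exact hv (mem_filter.2 ⟨mem_univ _, by omega⟩)
    have h2 := degree_eq G L1 v.1
    have h3 := G.minDegree_le_degree v.1
    have h4 : dg G L1ᶜ v.1 ≤ G'.degree v := by
      rw [← SimpleGraph.card_neighborFinset_eq_degree]
      unfold dg
      have h5 : (L1ᶜ.filter fun w => G.Adj v.1 w) ⊆
          (G'.neighborFinset v).map (Function.Embedding.subtype _) := by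
        intro w hw
        rw [mem_filter, mem_compl] at hw
        rw [mem_map]
        exact ⟨⟨w, hw.1⟩, (SimpleGraph.mem_neighborFinset _ _ _).2 hw.2, rfl⟩
      have h6 := card_le_card h5
      rwa [card_map] at h6
    omega
  let f : W → S := fun a => ⟨g' a, hout a⟩
  have hf : Exch.IsCopy T G' f := by
    refine ⟨fun a b hab => hg'.1 (congrArg Subtype.val hab), fun a b hab => ?_⟩
    exact hg'.2 a b hab
  obtain ⟨g2, hg2, z, hzZ, hz⟩ := Exch.exchange hT hZ hdegS (by rw [hcardS]; exact hne) hf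
  -- the new copy misses `z`
  have h2 := (mem_filter.1 hzZ).2
  have hcopy : Exch.IsCopy T G (fun a => (g2 a).1) :=
    ⟨fun a b hab => hg2.1 (Subtype.ext hab), fun a b hab => hg2.2 a b hab⟩
  have hout2 : ∀ x, (g2 x).1 ∉ L1 := fun x => (g2 x).2
  have hgz : ∀ x, (g2 x).1 ≠ z.1 := fun x hx => hz x (Subtype.ext hx)
  have hclo := clo_insert G h hc hcopy hout2 z.2 hgz (by omega)
  have h3 := hmax _ _ _ hclo hcopy (by
    intro x hx
    rcases mem_insert.1 hx with h4 | h4
    · exact hgz x h4
    · exact hout2 x h4)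
  rw [card_insert_of_notMem z.2] at h3
  omega

end

end Pool.Agent.Lib_MP_f6e057_co.AC
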