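import Pool.Agent.Lib_MP_f6e057_co.AC.Mader

/-!
# A highly connected thin piece
-/

set_option autoImplicit false
set_option linter.unusedSectionVars false

namespace Pool.Agent.Lib_MP_f6e057_co.AC

open Finset

section
variable {V : Type*} [Fintype V] [DecidableEq V] (G : SimpleGraph V) [DecidableRel G.Adj]

/-- **Proof** (extends `AC/Mader.lean`). `J ⊆ F` of minimal cardinality with `2 q ≤ |J|` and
`tE J > 2 g (|J| - q)`; `|J| > 2 q`, min degree `> g` and the separator property as in `mader`.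
For `y ∈ J` minimality gives `tE J ≤ 2 g (|J| - q) - 2 g + 2 dg J y`. Let `y` have minimum degree
`d` in `J`: `|J| d ≤ tE J`, so `(|J| - 2) d ≤ 2 g (|J| - q - 1) ≤ 2 g (|J| - 2)`, so `d ≤ 2 g`.
Thin: let `z ∈ F \ J`, `D = dg J z`, `J2 = (insert z J).erase y`, `|J2| = |J|`,
`tE J2 ≥ tE J + 2 D - 2 (d + 1)`. Let `y'` have minimum degree `d'` in `J2`; `J3 = J2.erase y'` has
`|J| - 1 ≥ 2 q` elements, so `tE J2 - 2 d' ≤ 2 g (|J| - 1 - q)`, and `|J| d' ≤ tE J2`, so
`(|J| - 2) d' ≤ 2 g (|J| - 1 - q)`, `d' ≤ 2 g`, `tE J2 ≤ 2 g (|J| - q) + 2 g`. With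
`tE J > 2 g (|J| - q)`: `2 D < 2 g + 2 d + 2 ≤ 6 g + 2`. -/
theorem mader_thin {F : Finset V} (hF : F.Nonempty) {q g : ℕ} (hq : 1 ≤ q) (hg : 2 * q ≤ g)
    (hd : ∀ v ∈ F, 2 * g ≤ dg G F v) :
    ∃ J ⊆ F, J.Nonempty ∧ (∀ v ∈ J, g < dg G J v) ∧
      (∀ U ⊆ J, U.Nonempty → (J \ (U ∪ nbL G J U)).Nonempty → q < (nbL G J U).card) ∧
      (∀ z ∈ F, z ∉ J → dg G J z ≤ 3 * g) ∧ ∃ v ∈ J, dg G J v ≤ 2 * g := by
  classical
  have hR : F.Nonempty := hF
  obtain ⟨r, hr⟩ := hR
  have hRF : F ∈ F.powerset.filter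
      (fun J => 2 * q ≤ J.card ∧ 2 * g * J.card < tE G J + 2 * g * q) := by
    rw [mem_filter, mem_powerset]
    refine ⟨Subset.refl F, ?_, ?_⟩
    · have h1 := dg_lt_card G hr
      have h2 := hd r hr
      omega
    · have h1 : F.card * (2 * g) ≤ tE G F := by
        unfold tE
        have := card_nsmul_le_sum F (fun v => dg G F v) (2 * g) hd
        simpa using this
      have h2 : 0 < 2 * g * q := by
        have : 0 < g := by omega
        positivity
      nlinarith
  obtain ⟨J, hJ, hmin⟩ := exists_min_image _ Finset.card ⟨F, hRF⟩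
  rw [mem_filter, mem_powerset] at hJ
  obtain ⟨hJR, hJ1, hJ2⟩ := hJ
  -- minimality
  have hm : ∀ K ⊆ F, K.card < J.card → 2 * q ≤ K.card → tE G K + 2 * g * q ≤ 2 * g * K.card := by
    intro K hK h1 h2
    by_contra h3
    push Not at h3
    have h4 := hmin K (by
      rw [mem_filter, mem_powerset]
      exact ⟨hK, h2, h3⟩)
    omega
  have hc1 : 2 * q < J.card := by
    rcases lt_or_eq_of_le hJ1 with h | h
    · exact h
    exfalso
    have h1 : tE G J + J.card ≤ J.card * J.card := by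
      have h2 : ∑ v ∈ J, (dg G J v + 1) ≤ J.card * J.card := by
        have := sum_le_card_nsmul J (fun v => dg G J v + 1) J.card
          (fun v hv => dg_lt_card G hv)
        simpa using this
      rw [sum_add_distrib] at h2
      unfold tE
      simpa using h2
    rw [← h] at h1 hJ2
    have h2 : q * (2 * q) ≤ q * g := Nat.mul_le_mul_left q hg
    nlinarith
  have hdeg : ∀ v ∈ J, g < dg G J v := by
    intro v hv
    have h1 := card_erase_of_mem hv
    have h2 := hm (J.erase v) ((erase_subset v J).trans hJR) (by omega) (by omega)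
    have h3 := tE_erase G hv
    rw [h1] at h2
    obtain ⟨c, hc⟩ : ∃ c, J.card = c + 1 := ⟨J.card - 1, by omega⟩
    rw [hc] at h2 hJ2
    rw [Nat.add_sub_cancel] at h2
    rw [h3] at hJ2
    nlinarith
  have hne : J.Nonempty := card_pos.mp (by omega)
  have hthin : ∀ K ⊆ F, K.card = J.card → ∃ v ∈ K, dg G K v ≤ 2 * g ∧
      tE G K ≤ 2 * g * (J.card - 1) - 2 * g * q + 2 * dg G K v ∧
      tE G K + 2 * g * q ≤ 2 * g * (J.card - 1) + 2 * dg G K v := by
    intro K hK hKc
    have hKne : K.Nonempty := card_pos.mp (by omega)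
    obtain ⟨y, hy, hymin⟩ := exists_min_image K (fun v => dg G K v) hKne
    have h1 := card_erase_of_mem hy
    have h2 := hm (K.erase y) ((erase_subset y K).trans hK) (by omega) (by omega)
    have h3 := tE_erase G hy
    have h4 : K.card * dg G K y ≤ tE G K := by
      unfold tE
      have := card_nsmul_le_sum K (fun v => dg G K v) (dg G K y) hymin
      simpa using this
    rw [h1, hKc] at h2
    obtain ⟨c, hc⟩ : ∃ c, J.card = c + 3 := ⟨J.card - 3, by omega⟩
    have h5 : J.card - 1 = c + 2 := by omega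
    rw [h5] at h2 ⊢
    rw [hKc, hc] at h4
    refine ⟨y, hy, ?_, by omega, by omega⟩
    have h6 : (c + 1) * dg G K y ≤ (c + 1) * (2 * g) := by
      have h7 : 2 * g * 1 ≤ 2 * g * q := Nat.mul_le_mul_left _ hq
      nlinarith
    exact Nat.le_of_mul_le_mul_left h6 (by omega)
  obtain ⟨y, hyJ, hyd, -, -⟩ := hthin J hJR rfl
  refine ⟨J, hJR, hne, hdeg, ?_, ?_, y, hyJ, hyd⟩
  swap
  · intro z hzF hzJ
    have hZ : (insert z J).erase z = J := erase_insert hzJ
    have hyz : y ≠ z := fun h => hzJ (h ▸ hyJ)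
    have hyZ : y ∈ insert z J := mem_insert_of_mem hyJ
    have a1 := tE_erase G (mem_insert_self z J)
    rw [hZ] at a1
    have a2 : dg G (insert z J) z = dg G J z := by
      unfold dg
      rw [filter_insert, if_neg (fun h => G.loopless.irrefl z h)]
    have a3 := tE_erase G hyZ
    have a4 : dg G (insert z J) y ≤ dg G J y + 1 := by
      unfold dg
      rw [filter_insert]
      split_ifs with h
      · exact card_insert_le _ _
      · omega
    have hK : (insert z J).erase y ⊆ F :=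
      (erase_subset _ _).trans (insert_subset hzF hJR)
    have hKc : ((insert z J).erase y).card = J.card := by
      rw [card_erase_of_mem hyZ, card_insert_of_notMem hzJ, Nat.add_sub_cancel]
    obtain ⟨w, -, hw, -, hw3⟩ := hthin _ hK hKc
    obtain ⟨c, hc⟩ : ∃ c, J.card = c + 3 := ⟨J.card - 3, by omega⟩
    have h5 : J.card - 1 = c + 2 := by omega
    rw [h5] at hw3
    rw [hc] at hJ2
    have h8 : 2 * g * (c + 3) = 2 * g * (c + 2) + 2 * g := by ring
    omega
  intro U hU hUn hX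
  by_contra hN
  push Not at hN
  obtain ⟨u, hu⟩ := hUn
  obtain ⟨x, hx⟩ := hX
  set N := nbL G J U with hNdef
  have hNJ : N ⊆ J := fun v hv => ((mem_nbL G).1 hv).1
  have hNU : Disjoint U N := by
    rw [disjoint_left]
    intro v h1 h2
    exact ((mem_nbL G).1 h2).2.1 h1
  -- the two parts
  have hJ1s : U ∪ N ⊆ J := union_subset hU hNJ
  have hJ1c : (U ∪ N).card = U.card + N.card := card_union_of_disjoint hNU
  have hJ2c : (J \ U).card + U.card = J.card := card_sdiff_add_card_eq_card hU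
  have hxJ : x ∈ J := (mem_sdiff.1 hx).1
  have hxn : x ∉ U ∪ N := (mem_sdiff.1 hx).2
  have hlt1 : (U ∪ N).card < J.card :=
    card_lt_card ((ssubset_iff_of_subset hJ1s).2 ⟨x, hxJ, hxn⟩)
  have hlt2 : (J \ U).card < J.card := by
    have : 0 < U.card := card_pos.mpr ⟨u, hu⟩
    omega
  have hb1 : g + 2 ≤ (U ∪ N).card := by
    have h1 := dg_le_of_mem G (L := J) hu
    rw [← hNdef] at h1
    have h2 := hdeg u (hU hu)
    omega
  -- neighbours
  have hnoX : ∀ v ∈ J \ (U ∪ N), dg G J v = dg G (J \ U) v := by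
    intro v hv
    unfold dg
    congr 1
    ext w
    rw [mem_filter, mem_filter, mem_sdiff]
    constructor
    · rintro ⟨h1, h2⟩
      refine ⟨⟨h1, fun h3 => ?_⟩, h2⟩
      obtain ⟨h4, h5⟩ := mem_sdiff.1 hv
      rw [mem_union, not_or] at h5
      exact h5.2 ((mem_nbL G).2 ⟨h4, h5.1, w, h3, h2.symm⟩)
    · rintro ⟨⟨h1, -⟩, h2⟩
      exact ⟨h1, h2⟩
  have hnoU : ∀ v ∈ U, dg G J v = dg G (U ∪ N) v := by
    intro v hv
    unfold dg
    congr 1
    ext w
    rw [mem_filter, mem_filter]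
    constructor
    · rintro ⟨h1, h2⟩
      refine ⟨?_, h2⟩
      rw [mem_union]
      by_cases h3 : w ∈ U
      · exact Or.inl h3
      · exact Or.inr ((mem_nbL G).2 ⟨h1, h3, v, hv, h2⟩)
    · rintro ⟨h1, h2⟩
      exact ⟨hJ1s h1, h2⟩
  have hb2 : g + 2 ≤ (J \ U).card := by
    have h1 := hdeg x hxJ
    rw [hnoX x hx] at h1
    have h2 : x ∈ J \ U := mem_sdiff.2 ⟨hxJ, fun h => hxn (mem_union_left N h)⟩
    have h3 := dg_lt_card G h2
    omega
  have hm1 := hm (U ∪ N) (hJ1s.trans hJR) hlt1 (by omega)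
  have hm2 := hm (J \ U) (sdiff_subset.trans hJR) hlt2 (by omega)
  -- the edges
  have hsplit : J = (U ∪ N) ∪ (J \ (U ∪ N)) := (union_sdiff_of_subset hJ1s).symm
  have hsplit2 : J \ U = N ∪ (J \ (U ∪ N)) := by
    ext v
    simp only [mem_sdiff, mem_union, not_or]
    constructor
    · rintro ⟨h1, h2⟩
      by_cases h3 : v ∈ N
      · exact Or.inl h3
      · exact Or.inr ⟨h1, h2, h3⟩
    · rintro (h1 | ⟨h1, h2, -⟩)
      · exact ⟨hNJ h1, fun h2 => (disjoint_left.1 hNU) h2 h1⟩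
      · exact ⟨h1, h2⟩
  have hdN : Disjoint N (J \ (U ∪ N)) := by
    rw [disjoint_left]
    intro v h1 h2
    exact (mem_sdiff.1 h2).2 (mem_union_right U h1)
  have hE : tE G J ≤ tE G (U ∪ N) + tE G (J \ U) := by
    have e1 : tE G J = ∑ v ∈ U, dg G J v + ∑ v ∈ N, dg G J v + ∑ v ∈ J \ (U ∪ N), dg G J v := by
      unfold tE
      rw [← sum_union hNU, ← sum_union disjoint_sdiff, ← hsplit]
    have e2 : tE G (U ∪ N) = ∑ v ∈ U, dg G (U ∪ N) v + ∑ v ∈ N, dg G (U ∪ N) v := by
      unfold tE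
      rw [← sum_union hNU]
    have e3 : tE G (J \ U) = ∑ v ∈ N, dg G (J \ U) v + ∑ v ∈ J \ (U ∪ N), dg G (J \ U) v := by
      unfold tE
      rw [← sum_union hdN, ← hsplit2]
    have e4 : ∑ v ∈ N, dg G J v ≤ ∑ v ∈ N, dg G (U ∪ N) v + ∑ v ∈ N, dg G (J \ U) v := by
      rw [← sum_add_distrib]
      apply sum_le_sum
      intro v _
      have h5 : J ⊆ (U ∪ N) ∪ (J \ U) := by
        intro w hw
        by_cases h6 : w ∈ U
        · exact mem_union_left _ (mem_union_left _ h6)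
        · exact mem_union_right _ (mem_sdiff.2 ⟨hw, h6⟩)
      exact (dg_mono G h5 v).trans (dg_union_le G _ _ v)
    have e5 : ∑ v ∈ J \ (U ∪ N), dg G J v = ∑ v ∈ J \ (U ∪ N), dg G (J \ U) v :=
      sum_congr rfl hnoX
    have e6 : ∑ v ∈ U, dg G J v = ∑ v ∈ U, dg G (U ∪ N) v := sum_congr rfl hnoU
    rw [e1, e2, e3, e5, e6]
    omega
  have hNle : 2 * g * N.card ≤ 2 * g * q := Nat.mul_le_mul_left _ hN
  rw [hJ1c] at hm1
  have hfin : 2 * g * (J \ U).card + 2 * g * U.card = 2 * g * J.card := by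
    rw [← Nat.mul_add, hJ2c]
  rw [Nat.mul_add] at hm1
  omega

end

end Pool.Agent.Lib_MP_f6e057_co.AC
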